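import Pool.Agent.GV.Basic

/-!
# GV-CM-Bshift: the shift relation, the first column and integrality of the binomial matrix

* `B_shift`: `B_{a+1}(l+1, j) + B_{a+1}(l+1, j+1) = B_a(l+1, j) + B_a(l, j)`, every `a : ℚ`.
  Plan: `e = 0`: with `N = j + l + 1 - a` and `r = 2l + 2 - j` (if `2l+2 ≥ j`) this is
  `C(N-1,r)+C(N-2,r) + C(N,r-1)+C(N-1,r-1) = C(N,r)+C(N-1,r) + C(N-1,r-2)+C(N-2,r-2)`, which
  follows from Pascal's rule (`bin_pascal`).  Edge cases: `r < 0` (all zero), `r = 0`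
  (`2l+2 = j`), `r = 1`.  Do the cases `j > 2l+2`, `j = 2l+2`, `j = 2l+1`, `j ≤ 2l`.
  `e = 1`: `C(N-1,r)+C(N-2,r-1) + C(N,r-1)+C(N-1,r-2) = C(N,r)+C(N-1,r-1)+C(N-1,r-2)+C(N-2,r-3)`.
* `B_int`: for `a : ℕ` the entries are integers: `bin (z : ℚ) r` is an integer for `z : ℤ`
  (`Ring.choose z r`, or `P z r` is divisible by `r!`: `Int` / `Nat.descFactorial`; for negative
  `z` use `P (-m) r = (-1)^r P (m+r-1) r`).
* `B_col_one`: first column, `P (l + 1 - a) (2l-1) = - P (a + l - 3) (2l - 1)`, see the statement.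
  Plan (write `l = r + 1`): `bin (r+2-a) (2r+1) = - P (a+r-2) (2r+1) / (2r+1)!` (reverse the
  product, `2r+1` factors), `P (a+r-2) (2r+1) = P (a+r-2) (2r) (a-r-2)`; similarly
  `bin (r+1-a) (2r+1) = - P (a+r-1) (2r+1)/(2r+1)! = - (a+r-1) P (a+r-2) (2r) / (2r+1)!`,
  `bin (r+1-a) (2r) = P (a+r-2) (2r) / (2r)!`.
-/

namespace Pool.Agent.GV

private lemma bs_one (x : ℚ) : bin x 1 = x := by
  unfold bin
  rw [P_one]
  simp

private lemma bs_arg1 (a : ℚ) (l j : ℕ) :
    ((j : ℚ) + ((l + 1 : ℕ) : ℚ) - (a + 1)) = (j : ℚ) + l + 1 - a - 1 := by push_cast; ring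

private lemma bs_arg2 (a : ℚ) (l j : ℕ) :
    (((j + 1 : ℕ) : ℚ) + ((l + 1 : ℕ) : ℚ) - (a + 1)) = (j : ℚ) + l + 1 - a := by push_cast; ring

private lemma bs_arg3 (a : ℚ) (l j : ℕ) :
    ((j : ℚ) + ((l + 1 : ℕ) : ℚ) - a) = (j : ℚ) + l + 1 - a := by push_cast; ring

private lemma bs_arg4 (a : ℚ) (l j : ℕ) :
    ((j : ℚ) + l - a) = (j : ℚ) + l + 1 - a - 1 := by ring

private lemma bs_shift0 (a : ℚ) (l j : ℕ) :
    B0 (a + 1) (l + 1) j + B0 (a + 1) (l + 1) (j + 1) = B0 a (l + 1) j + B0 a l j := by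
  unfold B0
  rw [bs_arg1, bs_arg2, bs_arg3, bs_arg4]
  generalize (j : ℚ) + l + 1 - a = N
  rcases lt_trichotomy j (2 * l + 1) with h | h | h
  · obtain ⟨q, hq⟩ := Nat.exists_eq_add_of_le (show j ≤ 2 * l by omega)
    have e1 : 2 * (l + 1) - j = q + 2 := by omega
    have e2 : 2 * (l + 1) - (j + 1) = q + 1 := by omega
    have e3 : 2 * l - j = q := by omega
    rw [if_neg (by omega), if_neg (by omega), if_neg (by omega), if_neg (by omega), e1, e2, e3]
    have p1 := bin_pascal N (q + 1)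
    have p2 := bin_pascal N q
    have p3 := bin_pascal (N - 1) (q + 1)
    have p4 := bin_pascal (N - 1) q
    linarith
  · subst h
    have e1 : 2 * (l + 1) - (2 * l + 1) = 1 := by omega
    have e2 : 2 * (l + 1) - (2 * l + 1 + 1) = 0 := by omega
    rw [if_neg (by omega), if_neg (by omega), if_neg (by omega), if_pos (by omega), e1, e2]
    simp only [bs_one, bin_zero]
    ring
  · rcases Nat.lt_or_ge (2 * l + 2) j with h' | h'
    · rw [if_pos (by omega), if_pos (by omega), if_pos (by omega), if_pos (by omega)]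
    · have h2 : j = 2 * l + 2 := by omega
      subst h2
      have e1 : 2 * (l + 1) - (2 * l + 2) = 0 := by omega
      rw [if_neg (by omega), if_pos (by omega), if_neg (by omega), if_pos (by omega), e1]
      simp only [bin_zero]

private lemma bs_shift1 (a : ℚ) (l j : ℕ) :
    B1 (a + 1) (l + 1) j + B1 (a + 1) (l + 1) (j + 1) = B1 a (l + 1) j + B1 a l j := by
  unfold B1
  rw [bs_arg1, bs_arg2, bs_arg3, bs_arg4]
  generalize (j : ℚ) + l + 1 - a = N
  rcases lt_trichotomy j (2 * l + 1) with h | h | h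
  · obtain ⟨q, hq⟩ := Nat.exists_eq_add_of_le (show j ≤ 2 * l by omega)
    have e1 : 2 * (l + 1) - j = q + 2 := by omega
    have e2 : 2 * (l + 1) - (j + 1) = q + 1 := by omega
    have e3 : 2 * l - j = q := by omega
    have e4 : q + 2 - 1 = q + 1 := by omega
    have e5 : q + 1 - 1 = q := by omega
    rw [if_neg (by omega), if_neg (by omega), if_neg (by omega), if_neg (by omega),
      if_neg (by omega), if_neg (by omega), if_neg (by omega), e1, e2, e3, e4, e5]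
    have p1 := bin_pascal N (q + 1)
    have p2 := bin_pascal N q
    have p4 := bin_pascal (N - 1) q
    rcases Nat.eq_zero_or_pos q with h0 | h0
    · subst h0
      rw [if_pos (by omega)]
      rw [bin_zero] at p2 p4 ⊢
      linarith
    · rw [if_neg (by omega)]
      obtain ⟨q', rfl⟩ := Nat.exists_eq_add_of_le' h0
      rw [show q' + 1 - 1 = q' by omega]
      have p3 := bin_pascal (N - 1) q'
      linarith
  · subst h
    have e1 : 2 * (l + 1) - (2 * l + 1) = 1 := by omega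
    have e2 : 2 * (l + 1) - (2 * l + 1 + 1) = 0 := by omega
    rw [if_neg (by omega), if_neg (by omega), if_neg (by omega), if_pos (by omega),
      if_neg (by omega), if_neg (by omega), if_pos (by omega), e1, e2,
      bs_one, bs_one, bin_zero]
    simp only [Nat.sub_self, bin_zero]
    ring
  · rcases Nat.lt_or_ge (2 * l + 2) j with h' | h'
    · rw [if_pos (by omega), if_pos (by omega), if_pos (by omega), if_pos (by omega)]
    · have h2 : j = 2 * l + 2 := by omega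
      subst h2
      have e1 : 2 * (l + 1) - (2 * l + 2) = 0 := by omega
      rw [if_neg (by omega), if_pos (by omega), if_pos (by omega), if_neg (by omega),
        if_pos (by omega), if_pos (by omega), e1, bin_zero, bin_zero]

theorem B_shift (e : Bool) (a : ℚ) (l j : ℕ) :
    B e (a + 1) (l + 1) j + B e (a + 1) (l + 1) (j + 1) = B e a (l + 1) j + B e a l j := by
  cases e
  · exact bs_shift0 a l j
  · exact bs_shift1 a l j

theorem bin_int (z : ℤ) (r : ℕ) : ∃ w : ℤ, bin (z : ℚ) r = w := by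
  induction r generalizing z with
  | zero => exact ⟨1, by rw [bin_zero]; simp⟩
  | succ r ih =>
    induction z using Int.induction_on with
    | zero =>
      refine ⟨0, ?_⟩
      unfold bin
      rw [P_succ']
      simp
    | succ i hi =>
      obtain ⟨w1, h1⟩ := hi
      obtain ⟨w2, h2⟩ := ih (i : ℤ)
      refine ⟨w2 + w1, ?_⟩
      have h3 := bin_pascal (((i : ℤ) + 1 : ℤ) : ℚ) r
      have h4 : ((((i : ℤ) + 1 : ℤ) : ℚ) - 1) = ((i : ℤ) : ℚ) := by push_cast; ring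
      rw [h4, h1, h2] at h3
      rw [h3]
      push_cast
      ring
    | pred i hi =>
      obtain ⟨w1, h1⟩ := hi
      obtain ⟨w2, h2⟩ := ih (-(i : ℤ) - 1)
      refine ⟨w1 - w2, ?_⟩
      have h3 := bin_pascal ((-(i : ℤ) : ℤ) : ℚ) r
      have h4 : (((-(i : ℤ) : ℤ) : ℚ) - 1) = ((-(i : ℤ) - 1 : ℤ) : ℚ) := by push_cast; ring
      rw [h4, h1, h2] at h3
      push_cast at h3 ⊢
      linarith

theorem B_int (e : Bool) (a l j : ℕ) : ∃ w : ℤ, B e (a : ℚ) l j = w := by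
  have h1 : ((j : ℚ) + l - a) = (((j : ℤ) + l - a : ℤ) : ℚ) := by push_cast; ring
  have h2 : ((j : ℚ) + l - a - 1) = (((j : ℤ) + l - a - 1 : ℤ) : ℚ) := by push_cast; ring
  have key : ∀ (c : Prop) [Decidable c] (x y : ℚ), (∃ w : ℤ, x = w) → (∃ w : ℤ, y = w) →
      ∃ w : ℤ, (if c then x else y) = w := by
    intro c _ x y hx hy
    split_ifs
    · exact hx
    · exact hy
  have hadd : ∀ (x y : ℚ), (∃ w : ℤ, x = w) → (∃ w : ℤ, y = w) → ∃ w : ℤ, x + y = w := by
    rintro x y ⟨w, rfl⟩ ⟨v, rfl⟩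
    exact ⟨w + v, by push_cast; ring⟩
  cases e
  · change ∃ w : ℤ, B0 (a : ℚ) l j = w
    unfold B0
    rw [h2, h1]
    exact key _ _ _ ⟨0, by simp⟩ (hadd _ _ (bin_int _ _) (bin_int _ _))
  · change ∃ w : ℤ, B1 (a : ℚ) l j = w
    unfold B1
    rw [h2, h1]
    exact key _ _ _ ⟨0, by simp⟩ (hadd _ _ (bin_int _ _) (key _ _ _ ⟨0, by simp⟩ (bin_int _ _)))

theorem B_row_zero (e : Bool) (a : ℚ) (j : ℕ) (hj : 1 ≤ j) : B e a 0 j = 0 := by
  cases e
  · change B0 a 0 j = 0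
    unfold B0
    rw [if_pos (by omega)]
  · change B1 a 0 j = 0
    unfold B1
    rw [if_pos (by omega)]

/-- reversal of a falling product -/
private lemma bs_rev (x : ℚ) (m : ℕ) : P x m = (-1) ^ m * P ((m : ℚ) - 1 - x) m := by
  unfold P
  rw [← Finset.prod_range_reflect]
  have h : ∀ c : ℕ → ℚ, (-1 : ℚ) ^ m * ∏ t ∈ Finset.range m, c t =
      ∏ t ∈ Finset.range m, (-1) * c t := by
    intro c
    rw [Finset.prod_mul_distrib, Finset.prod_const, Finset.card_range]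
  rw [h]
  apply Finset.prod_congr rfl
  intro t ht
  have ht' := Finset.mem_range.1 ht
  have : ((m - 1 - t : ℕ) : ℚ) = m - 1 - t := by
    rw [Nat.sub_sub, Nat.cast_sub (by omega)]
    push_cast
    ring
  rw [this]
  ring

private lemma bs_c1 (a : ℚ) (r : ℕ) : P ((r : ℚ) + 2 - a) (2 * r + 1) =
    -((a - r - 2) * P (a + r - 2) (2 * r)) := by
  rw [bs_rev, P_succ]
  have h1 : (((2 * r + 1 : ℕ) : ℚ) - 1 - ((r : ℚ) + 2 - a)) = a + r - 2 := by push_cast; ring
  have h2 : (-1 : ℚ) ^ (2 * r + 1) = -1 := by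
    rw [pow_succ, pow_mul]
    norm_num
  rw [h1, h2]
  push_cast
  ring

private lemma bs_c2 (a : ℚ) (r : ℕ) : P ((r : ℚ) + 1 - a) (2 * r + 1) =
    -((a + r - 1) * P (a + r - 2) (2 * r)) := by
  rw [bs_rev, P_succ']
  have h1 : (((2 * r + 1 : ℕ) : ℚ) - 1 - ((r : ℚ) + 1 - a)) = a + r - 1 := by push_cast; ring
  have h2 : (-1 : ℚ) ^ (2 * r + 1) = -1 := by
    rw [pow_succ, pow_mul]
    norm_num
  have h3 : a + (r : ℚ) - 1 - 1 = a + r - 2 := by ring
  rw [h1, h2, h3]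
  ring

private lemma bs_c3 (a : ℚ) (r : ℕ) : P ((r : ℚ) + 1 - a) (2 * r) = P (a + r - 2) (2 * r) := by
  rw [bs_rev]
  have h1 : (((2 * r : ℕ) : ℚ) - 1 - ((r : ℚ) + 1 - a)) = a + r - 2 := by push_cast; ring
  have h2 : (-1 : ℚ) ^ (2 * r) = 1 := by
    rw [pow_mul]
    norm_num
  rw [h1, h2, one_mul]

theorem B0_col_one (a : ℚ) (r : ℕ) :
    B0 a (r + 1) 1 = -(2 * a - 3) * P (a + r - 2) (2 * r) / ((2 * r + 1).factorial : ℚ) := by
  unfold B0
  have e1 : 2 * (r + 1) - 1 = 2 * r + 1 := by omega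
  have e2 : (((1 : ℕ) : ℚ) + ((r + 1 : ℕ) : ℚ) - a) = (r : ℚ) + 2 - a := by push_cast; ring
  have e3 : (r : ℚ) + 2 - a - 1 = (r : ℚ) + 1 - a := by ring
  rw [if_neg (by omega), e1, e2, e3]
  unfold bin
  rw [bs_c1, bs_c2, ← add_div]
  congr 1
  ring

theorem B1_col_one (a : ℚ) (r : ℕ) :
    B1 a (r + 1) 1 = -(a - 3 * r - 3) * P (a + r - 2) (2 * r) / ((2 * r + 1).factorial : ℚ) := by
  unfold B1
  have e1 : 2 * (r + 1) - 1 = 2 * r + 1 := by omega
  have e2 : (((1 : ℕ) : ℚ) + ((r + 1 : ℕ) : ℚ) - a) = (r : ℚ) + 2 - a := by push_cast; ring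
  have e3 : (r : ℚ) + 2 - a - 1 = (r : ℚ) + 1 - a := by ring
  have e4 : 2 * r + 1 - 1 = 2 * r := by omega
  rw [if_neg (by omega), if_neg (by omega), e1, e2, e3, e4]
  unfold bin
  rw [bs_c1, bs_c3, Nat.factorial_succ]
  have h1 : ((2 * r).factorial : ℚ) ≠ 0 := by exact_mod_cast (2 * r).factorial_ne_zero
  have h2 : ((2 * (r : ℚ)) + 1) ≠ 0 := by positivity
  push_cast
  rw [div_add_div _ _ (mul_ne_zero h2 h1) h1, div_eq_div_iff (mul_ne_zero (mul_ne_zero h2 h1) h1)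
    (mul_ne_zero h2 h1)]
  ring

end Pool.Agent.GV
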