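import Pool.Agent.GV.Basic

/-!
# GV-CM-Gosper0: `L⁻¹ L = 1`, `e = 0`

Off-diagonal entry `(l, n)`, `l = n + d`, `d ≥ 1`: `∑_{t=0}^{d} L⁻¹(l, n+t) L(n+t, n) = 0`.

Plan (Gosper).  Let `f t = Ltf0 A (n+t) (d-t) * Lf0 A n t`, and for `t < d`
`R t = - t (A-2n-t) (A-n-2d+t) (A-3n-2d-t) / (d (A-n-t) (A-2n-d) (A-3n-3t))`
(this is `-(i-n)(a-i-n)(a-2l+i)(a-2l-i)/((l-n)(a-i)(a-l-n)(a-3i))` with `i = n + t`, `l = n + d`).
Claim: for `t ≤ d`, `∑_{s<t} f s = R t * f t` (induction on `t`; step: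
`(1 + R t) f t = R (t+1) f (t+1)` for `t < d`, an identity of products: the quotient
`f (t+1) / f t` is rational, computed with `P_succ`, `P_succ'`, `cc_succ`, `cc_shift`).
At `t = d`: `R d = -1`, so the sum up to `d` is `- f d + f d = 0`.
For the step write `t + 1 + u = d`: `Ltf0 A (n+t) (u+1)` and `Ltf0 A (n+t+1) u`
(case `u = 0` separately since `Ltf0 _ _ 0 = 1`), `Lf0 A n (t+1)` against `Lf0 A n t`.
All factors `A - 3 i`, `A - i - n`, ... are non-zero since `3 (n + d) < a`.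
If the step is heavy, do it in two lemmas: one for the ratio of the `Ltf0`'s, one for the ratio
of the `Lf0`'s (as cross-multiplied identities), then combine with `field_simp; ring`.
-/

namespace Pool.Agent.GV

private lemma gosper0_Lf (A : ℚ) (n t : ℕ) (h : 2 * (n : ℚ) + t + 1 < A) :
    Lf0 A n (t + 1) * ((A - 2 * n - 1 - t) * (2 * (t + 1)) * (2 * n + 2 * t + 1)) =
      Lf0 A n t * ((A - n + t) * (A - n - 1 - t) * (A - 3 * n - t)) := by
  have h1 : P (A - n - 1 + ((t + 1 : ℕ) : ℚ)) (2 * (t + 1)) =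
      (A - n + t) * (A - n - 1 - t) * P (A - n - 1 + t) (2 * t) := by
    have e1 : 2 * (t + 1) = 2 * t + 1 + 1 := by ring
    rw [e1, P_succ', P_succ]
    have e2 : A - n - 1 + ((t + 1 : ℕ) : ℚ) - 1 = A - n - 1 + t := by push_cast; ring
    rw [e2]
    push_cast
    ring
  have hc := cc_ne_zero n t
  have hp : P (A - 2 * n - 1) t ≠ 0 := P_ne_zero (by linarith)
  have hx : A - 2 * n - 1 - t ≠ 0 := by
    intro h0
    linarith
  have hy : (t : ℚ) + 1 ≠ 0 := by positivity
  have hz : 2 * ((t : ℚ) + 1) + 2 * n - 1 ≠ 0 := by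
    have h1 : (0 : ℚ) ≤ t := by positivity
    have h2 : (0 : ℚ) ≤ n := by positivity
    intro h0
    linarith
  unfold Lf0
  rw [h1, P_succ (A - 3 * n), P_succ (A - 2 * n - 1), cc_succ]
  generalize P (A - n - 1 + t) (2 * t) = p1 at *
  generalize P (A - 3 * n) t = p2 at *
  generalize P (A - 2 * n - 1) t = p3 at *
  generalize cc n t = p4 at *
  rw [div_mul_eq_mul_div, div_mul_eq_mul_div, div_eq_div_iff
    (mul_ne_zero (mul_ne_zero hp hx) (mul_ne_zero hc (mul_ne_zero (mul_ne_zero two_ne_zero hy) hz)))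
    (mul_ne_zero hp hc)]
  ring

private lemma gosper0_Ltf0_succ (a : ℚ) (n s : ℕ) : Ltf0 a n (s + 1) =
    (-1) ^ (s + 1) * P (a - n) (2 * s + 2) * (a - 3 * n) * P (a - 3 * n - 2 * s - 3) s /
      (P (a - 2 * n - s - 1) (s + 1) * cc n (s + 1)) := rfl

private lemma gosper0_Ltf (A : ℚ) (N u : ℕ) (h : 3 * ((N : ℚ) + u + 1) < A) :
    Ltf0 A N (u + 1) * ((A - 3 * N - 3) * (A - 2 * N - u - 1) * (2 * (u + 1)) * (2 * N + 1)) =
      -(Ltf0 A (N + 1) u * ((A - N) * (A - N - 2 * u - 1) * (A - 3 * N) *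
        (A - 3 * N - 2 * u - 3))) := by
  have hN : (0 : ℚ) ≤ N := by positivity
  rcases u with _ | s
  · rw [Ltf0_zero, gosper0_Ltf0_succ]
    simp only [Nat.cast_zero]
    have hc : cc N (0 + 1) = 2 * (2 * N + 1) := by
      rw [cc_succ, cc_zero]
      push_cast
      ring
    have hp2 : P (A - N) (2 * 0 + 2) = (A - N) * (A - N - 1) := by
      show P (A - N) (1 + 1) = _
      rw [P_succ, P_one]
      push_cast
      ring
    rw [hc, hp2, P_zero, P_one]
    push_cast at h ⊢
    have hx : A - 2 * N - 0 - 1 ≠ 0 := by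
      intro h0
      linarith
    have hy : (2 : ℚ) * N + 1 ≠ 0 := by positivity
    rw [div_mul_eq_mul_div, div_eq_iff (mul_ne_zero hx (mul_ne_zero two_ne_zero hy))]
    ring
  · push_cast at h
    have hs : (0 : ℚ) ≤ s := by positivity
    have e1 : P (A - N) (2 * (s + 1) + 2) =
        (A - N) * (A - N - 2 * s - 3) * P (A - (N + 1 : ℕ)) (2 * s + 2) := by
      have e0 : 2 * (s + 1) + 2 = 2 * s + 2 + 1 + 1 := by ring
      rw [e0, P_succ', P_succ]
      have e2 : A - ((N + 1 : ℕ) : ℚ) = A - N - 1 := by push_cast; ring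
      rw [e2]
      push_cast
      ring
    have e2 : P (A - 3 * N - 2 * ((s + 1 : ℕ) : ℚ) - 3) (s + 1) =
        (A - 3 * N - 2 * s - 5) * P (A - 3 * ((N + 1 : ℕ) : ℚ) - 2 * s - 3) s := by
      rw [P_succ']
      have e3 : A - 3 * N - 2 * ((s + 1 : ℕ) : ℚ) - 3 - 1 =
        A - 3 * ((N + 1 : ℕ) : ℚ) - 2 * s - 3 := by push_cast; ring
      rw [e3]
      push_cast
      ring
    have e3 : P (A - 2 * N - ((s + 1 : ℕ) : ℚ) - 1) (s + 1 + 1) =
        (A - 2 * N - s - 2) * P (A - 2 * ((N + 1 : ℕ) : ℚ) - s - 1) (s + 1) := by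
      rw [P_succ']
      have e4 : A - 2 * N - ((s + 1 : ℕ) : ℚ) - 1 - 1 =
        A - 2 * ((N + 1 : ℕ) : ℚ) - s - 1 := by push_cast; ring
      rw [e4]
      push_cast
      ring
    have e4 := cc_shift N (s + 1)
    have hc := cc_ne_zero (N + 1) (s + 1)
    have hp : P (A - 2 * ((N + 1 : ℕ) : ℚ) - s - 1) (s + 1) ≠ 0 := by
      apply P_ne_zero
      push_cast
      linarith
    rw [gosper0_Ltf0_succ, gosper0_Ltf0_succ, e1, e2, e3, e4]
    generalize P (A - (N + 1 : ℕ)) (2 * s + 2) = p1 at *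
    generalize P (A - 3 * ((N + 1 : ℕ) : ℚ) - 2 * s - 3) s = p2 at *
    generalize P (A - 2 * ((N + 1 : ℕ) : ℚ) - s - 1) (s + 1) = p3 at *
    generalize cc (N + 1) (s + 1) = p4 at *
    push_cast
    have hx : A - 2 * N - s - 2 ≠ 0 := by
      intro h0
      linarith
    have hy : (s : ℚ) + 1 + 1 ≠ 0 := by positivity
    have hz : 2 * (N : ℚ) + 1 ≠ 0 := by positivity
    rw [div_mul_eq_mul_div, div_mul_eq_mul_div, ← neg_div, div_eq_div_iff
      (mul_ne_zero (mul_ne_zero hx hp) (mul_ne_zero hc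
        (mul_ne_zero (mul_ne_zero two_ne_zero hy) hz)))
      (mul_ne_zero hp hc)]
    ring

theorem gosper0 (a n d : ℕ) (hn : 1 ≤ n) (hd : 1 ≤ d) (ha : 3 * (n + d) < a) :
    ∑ t ∈ Finset.range (d + 1), Ltf0 (a : ℚ) (n + t) (d - t) * Lf0 (a : ℚ) n t = 0 := by
  have ha' : 3 * ((n : ℚ) + d) < a := by exact_mod_cast ha
  have hn' : (1 : ℚ) ≤ n := by exact_mod_cast hn
  have hd' : (1 : ℚ) ≤ d := by exact_mod_cast hd
  set A : ℚ := (a : ℚ) with hA
  set f : ℕ → ℚ := fun t => Ltf0 A (n + t) (d - t) * Lf0 A n t with hf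
  have key : ∀ t, t ≤ d → (∑ s ∈ Finset.range t, f s) *
      (d * (A - n - t) * (A - 2 * n - d) * (A - 3 * n - 3 * t)) =
      -(t * (A - 2 * n - t) * (A - n - 2 * d + t) * (A - 3 * n - 2 * d - t)) * f t := by
    intro t
    induction t with
    | zero =>
      intro _
      simp
    | succ t ih =>
      intro ht
      obtain ⟨u, rfl⟩ : ∃ u, d = t + 1 + u := ⟨d - (t + 1), by omega⟩
      have hS := ih (by omega)
      rw [Finset.sum_range_succ]
      push_cast at ha' hd' hS ⊢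
      have hu : (0 : ℚ) ≤ u := by positivity
      have ht0 : (0 : ℚ) ≤ t := by positivity
      have hf0 : f t = Ltf0 A (n + t) (u + 1) * Lf0 A n t := by
        rw [hf]
        have : t + 1 + u - t = u + 1 := by omega
        simp only [this]
      have hf1 : f (t + 1) = Ltf0 A (n + t + 1) u * Lf0 A n (t + 1) := by
        rw [hf]
        have : t + 1 + u - (t + 1) = u := by omega
        simp only [this]
        rfl
      have hL := gosper0_Ltf A (n + t) u (by push_cast; linarith)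
      have hl := gosper0_Lf A n t (by linarith)
      push_cast at hL
      have hK : f (t + 1) * ((A - n - t) * (A - n - t - 2 * u - 1) * (A - 3 * n - 3 * t) *
          (A - 3 * n - 3 * t - 2 * u - 3) * (A - 2 * n - 1 - t) * (t + 1)) =
          -(f t * ((A - 3 * n - 3 * t - 3) * (A - 2 * n - 2 * t - u - 1) * (u + 1) * (A - n + t) *
            (A - n - 1 - t) * (A - 3 * n - t))) := by
        rw [hf0, hf1]
        generalize Ltf0 A (n + t) (u + 1) = x1 at *
        generalize Ltf0 A (n + t + 1) u = x2 at *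
        generalize Lf0 A n t = y1 at *
        generalize Lf0 A n (t + 1) = y2 at *
        linear_combination (y2 * (A - 2 * n - 1 - t) * (t + 1)) * hL -
          (x1 * (A - 3 * n - 3 * t - 3) * (A - 2 * n - 2 * t - u - 1) * (u + 1)) * hl
      generalize f (t + 1) = f1 at *
      generalize f t = f0 at *
      generalize (∑ s ∈ Finset.range t, f s) = S at *
      have hne : ((t : ℚ) + 1 + u) * (A - n - t) * (A - 2 * n - (t + 1 + u)) *
          (A - 3 * n - 3 * t) ≠ 0 := by
        have p1 : (0 : ℚ) < (t : ℚ) + 1 + u := by linarith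
        have p2 : (0 : ℚ) < A - n - t := by linarith
        have p3 : (0 : ℚ) < A - 2 * n - (t + 1 + u) := by linarith
        have p4 : (0 : ℚ) < A - 3 * n - 3 * t := by linarith
        positivity
      apply mul_right_cancel₀ hne
      linear_combination (((t : ℚ) + 1 + u) * (A - n - (t + 1)) * (A - 2 * n - (t + 1 + u)) *
        (A - 3 * n - 3 * (t + 1))) * hS +
        ((t : ℚ) + 1 + u) * (A - 2 * n - (t + 1 + u)) * hK
  have h1 := key d le_rfl
  rw [Finset.sum_range_succ]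
  have hne : (d : ℚ) * (A - n - d) * (A - 2 * n - d) * (A - 3 * n - 3 * d) ≠ 0 := by
    have p1 : (0 : ℚ) < (d : ℚ) := by linarith
    have p2 : (0 : ℚ) < A - n - d := by linarith
    have p3 : (0 : ℚ) < A - 2 * n - d := by linarith
    have p4 : (0 : ℚ) < A - 3 * n - 3 * d := by linarith
    positivity
  have h2 : (∑ s ∈ Finset.range d, f s) + f d = 0 := by
    apply mul_right_cancel₀ hne
    rw [add_mul, h1]
    ring
  exact h2

end Pool.Agent.GV
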