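import Pool.Agent.GV.Basic

/-!
# GV-CM-Gosper1: `L⁻¹ L = 1`, `e = 1`

Off-diagonal entry `(l, n)`, `l = n + d`, `d ≥ 1`: `∑_{t=0}^{d} L⁻¹(l, n+t) L(n+t, n) = 0`.

Plan (Gosper).  Let `f t = Ltf1 A (n+t) (d-t) * Lf1 A n t`, and for `t ≤ d`
`R t = - t (A-2n-t) (A-n-2d+t) (A-3n-2d-t) / (d (A-n-t) (A-2n-d) (A-3n-3t))`
(this is `-(i-n)(a-i-n)(a-2l+i)(a-2l-i)/((l-n)(a-i)(a-l-n)(a-3i))` with `i = n + t`, `l = n + d`;
it is the SAME `R` as for `e = 0`).
Claim: for `t ≤ d`, `∑_{s<t} f s = R t * f t` (induction on `t`; step: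
`(1 + R t) f t = R (t+1) f (t+1)` for `t < d`, an identity of products: the quotient
`f (t+1) / f t` is rational, computed with `P_succ`, `P_succ'`, `cc_succ`, `cc_shift`).
At `t = d`: `R d = -1`, so the sum up to `d` is `- f d + f d = 0`.
For the step write `t + 1 + u = d`: `Ltf1 A (n+t) (u+1)` against `Ltf1 A (n+t+1) u`,
`Lf1 A n (t+1)` against `Lf1 A n t` (case `t = 0` separately since `Lf1 _ _ 0 = 1`).
All factors `A - 3 i`, `A - i - n`, ... are non-zero since `3 (n + d) < a`.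
If the step is heavy, do it in two lemmas: one for the ratio of the `Ltf1`'s, one for the ratio
of the `Lf1`'s (as cross-multiplied identities), then combine with `field_simp; ring`.
-/

namespace Pool.Agent.GV

/-- recursion for `Lf1` -/
private lemma g1_L (A : ℚ) (n t : ℕ) (h2 : P (A - 2 * n - 1) (t + 1) ≠ 0) :
    Lf1 A n (t + 1) * ((A - 3 * n - 3 * t) * (A - 2 * n - 1 - t) *
      (2 * ((t : ℚ) + 1) * (2 * ((t : ℚ) + 1) + 2 * n - 1))) =
    Lf1 A n t * ((A - n + t) * (A - n - t - 1) * (A - 3 * n - 3 * t - 3) * (A - 3 * n - t)) := by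
  cases t with
  | zero =>
    have hcc := cc_ne_zero n (0 + 1)
    have hcc' := hcc
    rw [cc_succ, cc_zero, one_mul, Nat.cast_zero] at hcc'
    simp only [Lf1, P_zero, Nat.cast_zero]
    have e1 : P (A - n + 0) (2 * 0 + 2) = (A - n) * (A - n - 1) := by
      rw [show (2 * 0 + 2 : ℕ) = 1 + 1 from rfl, P_succ, P_one]
      push_cast
      ring
    rw [div_mul_eq_mul_div, div_eq_iff (mul_ne_zero h2 hcc), e1, P_succ, cc_succ]
    simp only [P_zero, cc_zero, Nat.cast_zero]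
    ring
  | succ s =>
    have hcc := cc_ne_zero n (s + 1 + 1)
    have hcc1 := cc_ne_zero n (s + 1)
    have h2a : P (A - 2 * n - 1) (s + 1) ≠ 0 := by
      rw [P_succ] at h2
      exact left_ne_zero_of_mul h2
    simp only [Lf1]
    have e1 : P (A - n + ((s + 1 : ℕ) : ℚ)) (2 * (s + 1) + 2) =
        (A - n + s + 1) * (P (A - n + s) (2 * s + 2) * (A - n - s - 2)) := by
      rw [show 2 * (s + 1) + 2 = (2 * s + 2 + 1) + 1 by ring, P_succ', P_succ]
      have : A - n + ((s + 1 : ℕ) : ℚ) - 1 = A - n + s := by push_cast; ring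
      rw [this]
      push_cast
      ring
    rw [div_mul_eq_mul_div, div_mul_eq_mul_div, div_eq_div_iff (mul_ne_zero h2 hcc)
      (mul_ne_zero h2a hcc1), e1, P_succ (A - 3 * n - 1) s, cc_succ n (s + 1),
      P_succ (A - 2 * n - 1) (s + 1)]
    push_cast
    ring

/-- recursion for `Ltf1` -/
private lemma g1_Lt (A : ℚ) (m u : ℕ) (h : P (A - 2 * m - u - 1) (u + 1) ≠ 0) :
    Ltf1 A m (u + 1) * ((A - 2 * m - u - 1) * (2 * ((u : ℚ) + 1) * (2 * m + 1))) =
    - Ltf1 A (m + 1) u * ((A - m) * (A - m - 1 - 2 * u) * (A - 3 * m - 2 * u - 3)) := by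
  unfold Ltf1
  have e1 : P (A - m) (2 * (u + 1)) = (A - m) * (P (A - (m + 1 : ℕ)) (2 * u) * (A - m - 1 - 2 * u)) := by
    rw [show 2 * (u + 1) = (2 * u + 1) + 1 by ring, P_succ', P_succ]
    have : A - ((m + 1 : ℕ) : ℚ) = A - m - 1 := by push_cast; ring
    rw [this]
    push_cast
    ring
  have e2 : P (A - 3 * m - 2 * ((u + 1 : ℕ) : ℚ) - 1) (u + 1) = (A - 3 * m - 2 * u - 3) *
      P (A - 3 * ((m + 1 : ℕ) : ℚ) - 2 * u - 1) u := by
    rw [P_succ']
    have h1 : A - 3 * m - 2 * ((u + 1 : ℕ) : ℚ) - 1 = A - 3 * m - 2 * u - 3 := by push_cast; ring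
    have h2 : A - 3 * m - 2 * u - 3 - 1 = A - 3 * ((m + 1 : ℕ) : ℚ) - 2 * u - 1 := by
      push_cast; ring
    rw [h1, h2]
  have e3 : P (A - 2 * m - ((u + 1 : ℕ) : ℚ)) (u + 1) = (A - 2 * m - u - 1) *
      P (A - 2 * ((m + 1 : ℕ) : ℚ) - u) u := by
    rw [P_succ']
    have h1 : A - 2 * m - ((u + 1 : ℕ) : ℚ) = A - 2 * m - u - 1 := by push_cast; ring
    have h2 : A - 2 * m - u - 1 - 1 = A - 2 * ((m + 1 : ℕ) : ℚ) - u := by
      push_cast; ring
    rw [h1, h2]
  have h' : P (A - 2 * m - ((u + 1 : ℕ) : ℚ)) (u + 1) ≠ 0 := by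
    have h1 : A - 2 * m - ((u + 1 : ℕ) : ℚ) = A - 2 * m - u - 1 := by push_cast; ring
    rw [h1]
    exact h
  have hc := cc_ne_zero (m + 1) u
  have hc' := cc_ne_zero m (u + 1)
  have hb' : P (A - 2 * ((m + 1 : ℕ) : ℚ) - u) u ≠ 0 := by
    rw [e3] at h'
    exact right_ne_zero_of_mul h'
  rw [← neg_div, div_mul_eq_mul_div, div_mul_eq_mul_div, div_eq_div_iff (mul_ne_zero h' hc')
    (mul_ne_zero hb' hc), e1, e2, e3, cc_shift, pow_succ]
  ring

private lemma g1_atom (X Y D r1 p q x x' y z z' v k e1 e2 s m2 uu : ℚ) (hD : D ≠ 0) (hx : x ≠ 0)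
    (hx' : x' ≠ 0) (hy : y ≠ 0) (hz : z ≠ 0) (hz' : z' ≠ 0) (hv : v ≠ 0) (hk : k ≠ 0)
    (hs : s ≠ 0) (hm2 : m2 ≠ 0) (huu : uu ≠ 0) (hr : r1 = D * x * y * z - p * q * v * uu) :
    -r1 / (D * x * y * z) * (-X * (x * e1 * e2) / (v * (2 * uu * m2)) * Y) +
      -X * (x * e1 * e2) / (v * (2 * uu * m2)) * Y =
    -(s * k * e1 * e2) / (D * x' * y * z') *
      (X * (Y * (p * x' * z' * q) / (z * k * (2 * s * m2)))) := by
  subst hr
  field_simp
  ring

theorem gosper1 (a n d : ℕ) (hn : 1 ≤ n) (hd : 1 ≤ d) (ha : 3 * (n + d) < a) :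
    ∑ t ∈ Finset.range (d + 1), Ltf1 (a : ℚ) (n + t) (d - t) * Lf1 (a : ℚ) n t = 0 := by
  set A : ℚ := (a : ℚ) with hA
  have haq : 3 * ((n : ℚ) + d) < A := by rw [hA]; exact_mod_cast ha
  have hn0 : (1 : ℚ) ≤ n := by exact_mod_cast hn
  have hd0 : (1 : ℚ) ≤ d := by exact_mod_cast hd
  let R : ℕ → ℚ := fun t => -(t * (A - 2 * n - t) * (A - n - 2 * d + t) * (A - 3 * n - 2 * d - t)) /
    (d * (A - n - t) * (A - 2 * n - d) * (A - 3 * n - 3 * t))
  have key : ∀ t, t ≤ d → ∑ s ∈ Finset.range t, Ltf1 A (n + s) (d - s) * Lf1 A n s =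
      R t * (Ltf1 A (n + t) (d - t) * Lf1 A n t) := by
    intro t
    induction t with
    | zero =>
      intro _
      simp [R]
    | succ t ih =>
      intro ht
      obtain ⟨u, rfl⟩ := Nat.exists_eq_add_of_le ht
      rw [Finset.sum_range_succ, ih (by omega)]
      have e1 : t + 1 + u - t = u + 1 := by omega
      have e2 : t + 1 + u - (t + 1) = u := by omega
      rw [e1, e2]
      push_cast at haq hd0
      have ht0 : (0 : ℚ) ≤ t := by positivity
      have hu0 : (0 : ℚ) ≤ u := by positivity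
      have hL := g1_L A n t (P_ne_zero (by push_cast; linarith))
      have hLt := g1_Lt A (n + t) u (P_ne_zero (by push_cast; linarith))
      push_cast at hLt
      have c1 : A - 3 * n - 3 * t ≠ 0 := by linarith
      have c2 : A - 2 * n - 1 - t ≠ 0 := by linarith
      have c3 : (2 * ((t : ℚ) + 1) + 2 * n - 1) ≠ 0 := by linarith
      have c4 : (t : ℚ) + 1 ≠ 0 := by linarith
      have c5 : A - 2 * (n + t) - u - 1 ≠ 0 := by linarith
      have c6 : (u : ℚ) + 1 ≠ 0 := by linarith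
      have c8 : (t : ℚ) + 1 + u ≠ 0 := by linarith
      have c9 : A - (n + t) ≠ 0 := by linarith
      have c10 : A - 2 * n - (t + 1 + u) ≠ 0 := by linarith
      have c11 : A - n - t - 1 ≠ 0 := by linarith
      have c12 : A - 3 * n - 3 * t - 3 ≠ 0 := by linarith
      have hL' : Lf1 A n (t + 1) = Lf1 A n t * ((A - n + t) * (A - n - t - 1) *
          (A - 3 * n - 3 * t - 3) * (A - 3 * n - t)) / ((A - 3 * n - 3 * t) * (A - 2 * n - 1 - t) *
      (2 * ((t : ℚ) + 1) * (2 * ((t : ℚ) + 1) + 2 * n - 1))) := by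
        rw [eq_div_iff]
        · exact hL
        · exact mul_ne_zero (mul_ne_zero c1 c2) (mul_ne_zero (mul_ne_zero two_ne_zero c4) c3)
      have hm : 2 * ((n : ℚ) + t) + 1 = 2 * ((t : ℚ) + 1) + 2 * n - 1 := by ring
      rw [hm] at hLt
      have hLt' : Ltf1 A (n + t) (u + 1) = - Ltf1 A (n + t + 1) u * ((A - (n + t)) *
          (A - (n + t) - 1 - 2 * u) * (A - 3 * (n + t) - 2 * u - 3)) /
          ((A - 2 * (n + t) - u - 1) * (2 * ((u : ℚ) + 1) * (2 * ((t : ℚ) + 1) + 2 * n - 1))) := by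
        rw [eq_div_iff]
        · exact hLt
        · exact mul_ne_zero c5 (mul_ne_zero (mul_ne_zero two_ne_zero c6) c3)
      rw [hL', hLt', ← add_assoc n t 1]
      have hat := g1_atom (Ltf1 A (n + t + 1) u) (Lf1 A n t) (t + 1 + u)
        (t * (A - 2 * n - t) * (A - n - 2 * (t + 1 + u) + t) * (A - 3 * n - 2 * (t + 1 + u) - t))
        (A - n + t) (A - 3 * n - t) (A - (n + t)) (A - n - t - 1) (A - 2 * n - (t + 1 + u))
        (A - 3 * n - 3 * t) (A - 3 * n - 3 * t - 3) (A - 2 * (n + t) - u - 1) (A - 2 * n - 1 - t)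
        (A - (n + t) - 1 - 2 * u) (A - 3 * (n + t) - 2 * u - 3) (t + 1)
        (2 * ((t : ℚ) + 1) + 2 * n - 1) (u + 1) c8 c9 c11 c10 c1 c12 c5 c2 c4 c3 c6 (by ring)
      have hR1 : R t = -(t * (A - 2 * n - t) * (A - n - 2 * (t + 1 + u) + t) *
          (A - 3 * n - 2 * (t + 1 + u) - t)) /
          ((t + 1 + u) * (A - (n + t)) * (A - 2 * n - (t + 1 + u)) * (A - 3 * n - 3 * t)) := by
        simp only [R]
        push_cast
        congr 1
        ring
      have hR2 : R (t + 1) = -((t + 1) * (A - 2 * n - 1 - t) * (A - (n + t) - 1 - 2 * u) *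
          (A - 3 * (n + t) - 2 * u - 3)) /
          ((t + 1 + u) * (A - n - t - 1) * (A - 2 * n - (t + 1 + u)) *
            (A - 3 * n - 3 * t - 3)) := by
        simp only [R]
        push_cast
        congr 1 <;> ring
      rw [hR1, hR2]
      exact hat
  rw [Finset.sum_range_succ, key d le_rfl]
  have hRd : R d = -1 := by
    simp only [R]
    have c1 : (d : ℚ) ≠ 0 := by linarith
    have c2 : A - n - d ≠ 0 := by linarith
    have c3 : A - 2 * n - d ≠ 0 := by linarith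
    have c4 : A - 3 * n - 3 * d ≠ 0 := by linarith
    rw [div_eq_iff (mul_ne_zero (mul_ne_zero (mul_ne_zero c1 c2) c3) c4)]
    ring
  rw [hRd]
  ring

end Pool.Agent.GV
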