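import Pool.Agent.GV.CM.Ratio

/-!
# GV-CM-R1a: contiguous relation for `L`, `e = 0`

`L_a(n+r+1, n) + L_a(n+r, n) = L_{a+1}(n+r+1, n) + η L_{a+1}(n+r+1, n+1)`, `η = D_{a+1}(n+1)/D_a(n)`.

Plan.  Put `A = (a : ℚ)`.  Every term is `P (A - n - 1 + r) (2 r)` times a simple expression:
* `Lf0 A n (r+1) = P (A-n+r) (2r+2) P (A-3n) (r+1) / (P (A-2n-1) (r+1) cc n (r+1))` and
  `P (A-n+r) (2r+2) = (A-n+r) P (A-n-1+r) (2r) ... `: precisely
  `P (A-n+r) (2r+2) = (A-n+r) * P (A-n+r-1) (2r) * (A-n-1-r)` (use `P_succ'` then `P_succ`);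
* `Lf0 A n r` has `P (A-n-1+r) (2r)` directly;
* `Lf0 (A+1) n (r+1)`: `P (A-n+1+r) (2r+2) = (A-n+r+1) (A-n+r) P (A-n+r-1) (2r)` (`P_succ'` twice);
* `Lf0 (A+1) (n+1) r`: `P (A+1-(n+1)-1+r) (2r) = P (A-n-1+r) (2r)`.
The second products: `P (A-3n) (r+1)`, `P (A-3n) r`, `P (A+1-3n) (r+1) = (A+1-3n) P (A-3n) r`,
`P (A+1-3n-3) r = P (A-3n-2) r` with `(A-3n)(A-3n-1) P (A-3n-2) r = P (A-3n) (r+2)
 = P (A-3n) r (A-3n-r) (A-3n-r-1)`: note that `η` contains `(A-3n)(A-3n-1)`.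
Denominators: `P (A-2n-1) (r+1) = P (A-2n-1) r (A-2n-1-r)`,
`P (A+1-2n-1) (r+1) = P (A-2n) (r+1) = (A-2n) P (A-2n-1) r`,
`P (A+1-2(n+1)-1) r = P (A-2n-2) r` with `(A-2n-1) P (A-2n-2) r = P (A-2n-1) (r+1)`;
`cc_succ`, `cc_shift`.  All are non-zero as `2n + r + 1 < a`.
After substitution: `field_simp; ring`.  (Generalise the products first.)
-/

namespace Pool.Agent.GV

theorem R1a (a n r : ℕ) (ha : 2 * n + r + 1 < a) :
    Lf0 (a : ℚ) n (r + 1) + Lf0 (a : ℚ) n r =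
      Lf0 ((a : ℚ) + 1) n (r + 1) + ee false a n * Lf0 ((a : ℚ) + 1) (n + 1) r := by
  have hA : 2 * (n : ℚ) + r + 1 < a := by exact_mod_cast ha
  have hr : (0 : ℚ) ≤ r := Nat.cast_nonneg r
  have hn : (0 : ℚ) ≤ n := Nat.cast_nonneg n
  generalize (a : ℚ) = A at hA ⊢
  have hd0 : P (A - 2 * n - 1) r ≠ 0 := P_ne_zero (by linarith)
  have hc0 : cc n r ≠ 0 := cc_ne_zero n r
  have hy : P (A + 1 - 2 * ((n + 1 : ℕ) : ℚ) - 1) r ≠ 0 := P_ne_zero (by push_cast; linarith)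
  have hz : cc (n + 1) r ≠ 0 := cc_ne_zero _ r
  have p1 : P (A - n - 1 + ((r + 1 : ℕ) : ℚ)) (2 * (r + 1)) =
      (A - n + r) * P (A - n - 1 + r) (2 * r) * (A - n - 1 - r) := by
    rw [show A - n - 1 + ((r + 1 : ℕ) : ℚ) = A - n + r by push_cast; ring,
      show 2 * (r + 1) = (2 * r + 1) + 1 from rfl, P_succ', P_succ,
      show A - n + r - 1 = A - n - 1 + r by ring]
    push_cast
    ring
  have p3 : P (A + 1 - n - 1 + ((r + 1 : ℕ) : ℚ)) (2 * (r + 1)) =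
      (A - n + r + 1) * (A - n + r) * P (A - n - 1 + r) (2 * r) := by
    rw [show A + 1 - n - 1 + ((r + 1 : ℕ) : ℚ) = A - n + r + 1 by push_cast; ring,
      show 2 * (r + 1) = (2 * r + 1) + 1 from rfl, P_succ', P_succ',
      show A - n + r + 1 - 1 = A - n + r by ring, show A - n + r - 1 = A - n - 1 + r by ring]
    ring
  have p4 : P (A + 1 - ((n + 1 : ℕ) : ℚ) - 1 + r) (2 * r) = P (A - n - 1 + r) (2 * r) := by
    rw [show A + 1 - ((n + 1 : ℕ) : ℚ) - 1 + r = A - n - 1 + r by push_cast; ring]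
  have q1 : P (A - 3 * n) (r + 1) = P (A - 3 * n) r * (A - 3 * n - r) := P_succ _ _
  have q3 : P (A + 1 - 3 * n) (r + 1) = (A + 1 - 3 * n) * P (A - 3 * n) r := by
    rw [P_succ', show A + 1 - 3 * (n : ℚ) - 1 = A - 3 * n by ring]
  have q4 : (A - 3 * n) * (A - 3 * n - 1) * P (A + 1 - 3 * ((n + 1 : ℕ) : ℚ)) r =
      P (A - 3 * n) r * (A - 3 * n - r) * (A - 3 * n - r - 1) := by
    have h1 : P (A - 3 * n) (r + 1 + 1) =
        (A - 3 * n) * ((A - 3 * n - 1) * P (A - 3 * n - 1 - 1) r) := by rw [P_succ', P_succ']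
    have h2 : P (A - 3 * n) (r + 1 + 1) =
        P (A - 3 * n) r * (A - 3 * n - r) * (A - 3 * n - (r + 1)) := by
      rw [P_succ, P_succ]; push_cast; ring
    rw [show A + 1 - 3 * ((n + 1 : ℕ) : ℚ) = A - 3 * n - 1 - 1 by push_cast; ring]
    have h3 := h1.symm.trans h2
    linear_combination h3
  have d1 : P (A - 2 * n - 1) (r + 1) = P (A - 2 * n - 1) r * (A - 2 * n - 1 - r) := P_succ _ _
  have d3 : P (A + 1 - 2 * n - 1) (r + 1) = (A - 2 * n) * P (A - 2 * n - 1) r := by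
    rw [show A + 1 - 2 * (n : ℚ) - 1 = A - 2 * n by ring, P_succ']
  have d4 : (A - 2 * n - 1) * P (A + 1 - 2 * ((n + 1 : ℕ) : ℚ) - 1) r =
      P (A - 2 * n - 1) r * (A - 2 * n - 1 - r) := by
    rw [← d1, P_succ', show A + 1 - 2 * ((n + 1 : ℕ) : ℚ) - 1 = A - 2 * n - 1 - 1 by push_cast; ring]
  have c1 := cc_succ n r
  have c4 := cc_shift n r
  rw [c1] at c4
  unfold Lf0 ee
  simp only [cond_false]
  rw [p1, p3, p4, q1, q3, d1, d3, c1]
  generalize P (A - n - 1 + r) (2 * r) = p0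
  generalize P (A + 1 - 2 * ((n + 1 : ℕ) : ℚ) - 1) r = y at *
  generalize P (A + 1 - 3 * ((n + 1 : ℕ) : ℚ)) r = x at *
  generalize cc (n + 1) r = z at *
  generalize P (A - 3 * n) r = q0 at *
  generalize P (A - 2 * n - 1) r = d0 at *
  generalize cc n r = c0 at *
  have k1 : A - 2 * n - 1 ≠ 0 := by
    intro h; linarith
  have k2 : A - 2 * n - 1 - r ≠ 0 := by
    intro h; linarith
  have k3 : A - 2 * n ≠ 0 := by
    intro h; linarith
  have k4 : 2 * ((r : ℚ) + 1) + 2 * n - 1 ≠ 0 := by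
    intro h; linarith
  have k5 : (r : ℚ) + 1 ≠ 0 := by
    intro h; linarith
  have k6 : 2 * (n : ℚ) + 1 ≠ 0 := by
    intro h; linarith
  have hyv : y = d0 * (A - 2 * n - 1 - r) / (A - 2 * n - 1) := by
    rw [eq_div_iff k1]; linear_combination d4
  have hzv : z = c0 * (2 * ((r : ℚ) + 1) + 2 * n - 1) / (2 * n + 1) := by
    rw [eq_div_iff k6]
    have h2 : (2 * ((r : ℚ) + 1)) ≠ 0 := mul_ne_zero two_ne_zero k5
    apply mul_left_cancel₀ h2
    linear_combination -c4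
  have t4 : -((A - 3 * n - 1) * (2 * A - 3 * n - 1) * (A - 3 * n)) /
      (2 * (2 * n + 1) * (A - 2 * n - 1) * (A - 2 * n)) * (p0 * x / (y * z)) =
      -((2 * A - 3 * n - 1) * (q0 * (A - 3 * n - r) * (A - 3 * n - r - 1)) * p0) /
      (2 * (2 * n + 1) * (A - 2 * n - 1) * (A - 2 * n) * (y * z)) := by
    rw [← q4, div_mul_div_comm]
    congr 1
    ring
  rw [t4, hyv, hzv]
  have key : (A - n + r) * (A - n - 1 - r) * (A - 3 * n - r) * (A - 2 * n) +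
      2 * ((r : ℚ) + 1) * (2 * ((r : ℚ) + 1) + 2 * n - 1) * (A - 2 * n) * (A - 2 * n - 1 - r) =
      (A - n + r + 1) * (A - n + r) * (A + 1 - 3 * n) * (A - 2 * n - 1 - r) -
      ((r : ℚ) + 1) * (2 * A - 3 * n - 1) * (A - 3 * n - r) * (A - 3 * n - r - 1) := by ring
  clear t4 hyv hzv c4 c1 d4 d3 d1 q4 q3 q1 p4 p3 p1 hy hz
  generalize A - 2 * (n : ℚ) - 1 - r = u2 at *
  generalize A - 2 * (n : ℚ) - 1 = u at *
  generalize A - 2 * (n : ℚ) = u1 at *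
  generalize 2 * ((r : ℚ) + 1) + 2 * n - 1 = v at *
  generalize (r : ℚ) + 1 = t at *
  generalize 2 * (n : ℚ) + 1 = w at *
  generalize A - 3 * (n : ℚ) - r - 1 = x1 at *
  generalize A - 3 * (n : ℚ) - r = x2 at *
  generalize A - (n : ℚ) + r + 1 = x3 at *
  generalize A - (n : ℚ) + r = x4 at *
  generalize A - (n : ℚ) - 1 - r = x5 at *
  generalize 2 * A - 3 * (n : ℚ) - 1 = x6 at *
  generalize A + 1 - 3 * (n : ℚ) = x7 at *
  field_simp
  linear_combination (p0 * q0) * key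

end Pool.Agent.GV
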