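import Pool.Agent.GV.CM.Ratio

/-!
# GV-CM-R1b: contiguous relation for `L`, `e = 1`

`L_a(n+r+1, n) + L_a(n+r, n) = L_{a+1}(n+r+1, n) + η L_{a+1}(n+r+1, n+1)`.

Plan: exactly as R1a (read the header of R1a.lean), with `Lf1` in place of `Lf0`.
Case `r = 0` separately (`Lf1 A n 0 = 1`), then `r = s + 1`.  The products are
`P (A-n+s) (2s+2)`, `(A-3n-3s-3) P (A-3n-1) s`, `P (A-2n-1) (s+1)`, `cc n (s+1)`.
All terms are `P (A-n+s) (2s+2)` times simple expressions: the four leading products are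
`P (A-n+s+1) (2s+4) = (A-n+s+1) P (A-n+s) (2s+2) (A-n-s-2)`, `P (A-n+s) (2s+2)`,
`P (A-n+s+2) (2s+4) = (A-n+s+2)(A-n+s+1) P (A-n+s) (2s+2)`, `P (A-n+s) (2s+2)`.
The second products are `P (A-3n-1) (s+1)`, `P (A-3n-1) s`,
`P (A+1-3n-1) (s+1) = (A-3n) P (A-3n-1) s`, `P (A+1-3(n+1)-1) s = P (A-3n-3) s`,
with `(A-3n-1)(A-3n-2) P (A-3n-3) s = P (A-3n-1) (s+2)`; `η` contains `(A-3n-1)(A-3n-2)`.
-/

namespace Pool.Agent.GV

private theorem alg {A n s X Y Z V K : ℚ} (h1 : A - 2 * n - 1 ≠ 0) (h2 : V ≠ 0)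
    (h3 : A - 2 * n - 2 - s ≠ 0) (h4 : A - 2 * n ≠ 0) (hK : K ≠ 0) (h5 : s + 1 ≠ 0)
    (h6 : s + 2 ≠ 0) (h7 : 2 * n + 1 ≠ 0) (h8 : 2 * s + 2 * n + 3 ≠ 0)
    (hZ : (A - 3 * n - 1) * (A - 3 * n - 2) * Z = Y * (A - 3 * n - 1 - s) * (A - 3 * n - 2 - s)) :
    (A - n + s + 1) * X * (A - n - s - 2) * (A - 3 * n - 3 * s - 6) * (Y * (A - 3 * n - 1 - s)) /
        (((A - 2 * n - 1) * (V * (A - 2 * n - 2 - s))) *
          (K * (2 * (s + 1) * (2 * s + 2 * n + 3)) * (2 * (s + 2) * (2 * n + 1)))) +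
      X * (A - 3 * n - 3 * s - 3) * Y / (((A - 2 * n - 1) * V) * (K * (2 * (s + 1) * (2 * n + 1)))) =
    (A - n + s + 2) * (A - n + s + 1) * X * (A - 3 * n - 3 * s - 5) * ((A - 3 * n) * Y) /
        (((A - 2 * n) * ((A - 2 * n - 1) * V)) *
          (K * (2 * (s + 1) * (2 * s + 2 * n + 3)) * (2 * (s + 2) * (2 * n + 1)))) +
      -((A - 3 * n - 1) * (A - 3 * n - 2) * (2 * A - 3 * n)) /
        (2 * (2 * n + 1) * (A - 2 * n - 1) * (A - 2 * n)) *
      (X * (A - 3 * n - 3 * s - 5) * Z / ((V * (A - 2 * n - 2 - s)) *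
        (K * (2 * (s + 1) * (2 * s + 2 * n + 3))))) := by
  have e : -((A - 3 * n - 1) * (A - 3 * n - 2) * (2 * A - 3 * n)) /
        (2 * (2 * n + 1) * (A - 2 * n - 1) * (A - 2 * n)) *
      (X * (A - 3 * n - 3 * s - 5) * Z / ((V * (A - 2 * n - 2 - s)) *
        (K * (2 * (s + 1) * (2 * s + 2 * n + 3))))) =
      -(Y * (A - 3 * n - 1 - s) * (A - 3 * n - 2 - s) * (2 * A - 3 * n)) /
        (2 * (2 * n + 1) * (A - 2 * n - 1) * (A - 2 * n)) *
      (X * (A - 3 * n - 3 * s - 5) / ((V * (A - 2 * n - 2 - s)) *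
        (K * (2 * (s + 1) * (2 * s + 2 * n + 3))))) := by
    rw [← hZ]
    ring
  rw [e]
  obtain ⟨p, hp⟩ : ∃ p, p = A - 2 * n - 1 := ⟨_, rfl⟩
  obtain ⟨q, hq⟩ : ∃ q, q = A - 2 * n - 2 - s := ⟨_, rfl⟩
  obtain ⟨u, hu⟩ : ∃ u, u = A - 2 * n := ⟨_, rfl⟩
  obtain ⟨c, hc⟩ : ∃ c, c = s + 1 := ⟨_, rfl⟩
  obtain ⟨d, hd⟩ : ∃ d, d = s + 2 := ⟨_, rfl⟩
  obtain ⟨w, hw⟩ : ∃ w, w = 2 * n + 1 := ⟨_, rfl⟩
  obtain ⟨z, hz⟩ : ∃ z, z = 2 * s + 2 * n + 3 := ⟨_, rfl⟩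
  rw [← hp, ← hq, ← hu, ← hc, ← hd, ← hw, ← hz]
  rw [← hp] at h1
  rw [← hq] at h3
  rw [← hu] at h4
  rw [← hc] at h5
  rw [← hd] at h6
  rw [← hw] at h7
  rw [← hz] at h8
  field_simp
  subst hp hq hu hc hd hw hz
  ring

theorem R1b (a n r : ℕ) (ha : 2 * n + r + 1 < a) :
    Lf1 (a : ℚ) n (r + 1) + Lf1 (a : ℚ) n r =
      Lf1 ((a : ℚ) + 1) n (r + 1) + ee true a n * Lf1 ((a : ℚ) + 1) (n + 1) r := by
  obtain ⟨A, hA⟩ : ∃ A : ℚ, A = (a : ℚ) := ⟨_, rfl⟩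
  have haQ : 2 * (n : ℚ) + r + 1 < A := by
    rw [hA]
    exact_mod_cast ha
  rw [← hA]
  have hn0 : (0 : ℚ) ≤ n := by positivity
  have hr0 : (0 : ℚ) ≤ r := by positivity
  have h7 : 2 * (n : ℚ) + 1 ≠ 0 := by positivity
  cases r with
  | zero =>
    have h1 : A - 2 * n - 1 ≠ 0 := by
      push_cast at haQ
      intro h
      linarith
    have h2 : A - 2 * n ≠ 0 := by
      push_cast at haQ
      intro h
      linarith
    have h3 : A + 1 - 2 * (n : ℚ) - 1 ≠ 0 := by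
      push_cast at haQ
      intro h
      linarith
    simp only [Lf1, ee, cond_true, P_zero, P_one, cc_succ, cc_zero, P_succ, mul_zero, zero_add,
      Nat.cast_zero, Nat.cast_one, sub_zero, one_mul, mul_one, add_zero]
    have e3 : A + 1 - 2 * (n : ℚ) - 1 = A - 2 * n := by ring
    have e4 : (2 : ℚ) + 2 * n - 1 = 2 * n + 1 := by ring
    rw [e3, e4]
    obtain ⟨p, hp⟩ : ∃ p, p = A - 2 * n - 1 := ⟨_, rfl⟩
    obtain ⟨u, hu⟩ : ∃ u, u = A - 2 * n := ⟨_, rfl⟩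
    obtain ⟨w, hw⟩ : ∃ w, w = 2 * (n : ℚ) + 1 := ⟨_, rfl⟩
    rw [← hp, ← hu, ← hw]
    rw [← hp] at h1
    rw [← hu] at h2
    rw [← hw] at h7
    field_simp
    subst hp hu hw
    ring
  | succ s =>
    have hs0 : (0 : ℚ) ≤ s := by positivity
    push_cast at haQ
    have h1 : A - 2 * n - 1 ≠ 0 := by
      intro h
      linarith
    have h3 : A - 2 * n - 2 - s ≠ 0 := by
      intro h
      linarith
    have h4 : A - 2 * n ≠ 0 := by
      intro h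
      linarith
    have h5 : (s : ℚ) + 1 ≠ 0 := by positivity
    have h6 : (s : ℚ) + 2 ≠ 0 := by positivity
    have h8 : 2 * (s : ℚ) + 2 * n + 3 ≠ 0 := by positivity
    have hV : P (A - 2 * n - 2) s ≠ 0 := P_ne_zero (by linarith)
    have hK := cc_ne_zero (n + 1) s
    -- leading products
    have x1 : P (A - n + ((s + 1 : ℕ) : ℚ)) (2 * (s + 1) + 2) =
        (A - n + s + 1) * P (A - n + s) (2 * s + 2) * (A - n - s - 2) := by
      have e : 2 * (s + 1) + 2 = (2 * s + 2 + 1) + 1 := by ring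
      rw [e, P_succ']
      have e2 : A - n + ((s + 1 : ℕ) : ℚ) - 1 = A - n + s := by push_cast; ring
      rw [e2, P_succ]
      push_cast
      ring
    have x2 : P (A + 1 - n + ((s + 1 : ℕ) : ℚ)) (2 * (s + 1) + 2) =
        (A - n + s + 2) * (A - n + s + 1) * P (A - n + s) (2 * s + 2) := by
      have e : 2 * (s + 1) + 2 = (2 * s + 2 + 1) + 1 := by ring
      rw [e, P_succ', P_succ']
      have e2 : A + 1 - n + ((s + 1 : ℕ) : ℚ) - 1 - 1 = A - n + s := by push_cast; ring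
      rw [e2]
      push_cast
      ring
    have x3 : P (A + 1 - ((n + 1 : ℕ) : ℚ) + s) (2 * s + 2) = P (A - n + s) (2 * s + 2) := by
      congr 1
      push_cast
      ring
    -- second products
    have y1 : P (A - 3 * n - 1) (s + 1) = P (A - 3 * n - 1) s * (A - 3 * n - 1 - s) := P_succ _ _
    have y2 : P (A + 1 - 3 * n - 1) (s + 1) = (A - 3 * n) * P (A - 3 * n - 1) s := by
      rw [P_succ']
      have e2 : A + 1 - 3 * (n : ℚ) - 1 = A - 3 * n := by ring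
      rw [e2]
    have y3 : P (A + 1 - 3 * ((n + 1 : ℕ) : ℚ) - 1) s = P (A - 3 * n - 1 - 1 - 1) s := by
      congr 1
      push_cast
      ring
    have y4 : (A - 3 * n - 1) * (A - 3 * n - 2) * P (A - 3 * n - 1 - 1 - 1) s =
        P (A - 3 * n - 1) s * (A - 3 * n - 1 - s) * (A - 3 * n - 2 - s) := by
      have k1 := P_succ' (A - 3 * n - 1) (s + 1)
      have k2 := P_succ' (A - 3 * n - 1 - 1) s
      have k3 := P_succ (A - 3 * n - 1) (s + 1)
      rw [k2] at k1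
      rw [y1, k1] at k3
      push_cast at k3
      linear_combination k3
    -- denominators
    have v1 : P (A - 2 * n - 1) (s + 1) = (A - 2 * n - 1) * P (A - 2 * n - 2) s := by
      rw [P_succ']
      have e2 : A - 2 * (n : ℚ) - 1 - 1 = A - 2 * n - 2 := by ring
      rw [e2]
    have v2 : P (A - 2 * n - 1) (s + 1 + 1) =
        (A - 2 * n - 1) * (P (A - 2 * n - 2) s * (A - 2 * n - 2 - s)) := by
      rw [P_succ, v1]
      push_cast
      ring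
    have v3 : P (A + 1 - 2 * n - 1) (s + 1 + 1) =
        (A - 2 * n) * ((A - 2 * n - 1) * P (A - 2 * n - 2) s) := by
      rw [P_succ']
      have e2 : A + 1 - 2 * (n : ℚ) - 1 - 1 = A - 2 * n - 1 := by ring
      rw [e2, v1]
      ring
    have v4 : P (A + 1 - 2 * ((n + 1 : ℕ) : ℚ) - 1) (s + 1) =
        P (A - 2 * n - 2) s * (A - 2 * n - 2 - s) := by
      have e2 : A + 1 - 2 * ((n + 1 : ℕ) : ℚ) - 1 = A - 2 * n - 2 := by push_cast; ring
      rw [e2, P_succ]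
    have c1 : cc (n + 1) (s + 1) = cc (n + 1) s * (2 * ((s : ℚ) + 1) * (2 * s + 2 * n + 3)) := by
      rw [cc_succ]
      push_cast
      ring
    have c2 : cc n (s + 1 + 1) = cc (n + 1) s * (2 * ((s : ℚ) + 1) * (2 * s + 2 * n + 3)) *
        (2 * ((s : ℚ) + 2) * (2 * n + 1)) := by
      rw [cc_shift, c1]
      push_cast
      ring
    have c3 : cc n (s + 1) = cc (n + 1) s * (2 * ((s : ℚ) + 1) * (2 * n + 1)) := cc_shift n s
    have key := alg (X := P (A - n + s) (2 * s + 2)) h1 hV h3 h4 hK h5 h6 h7 h8 y4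
    simp only [Lf1, ee, cond_true]
    rw [x1, x2, x3, y1, y2, y3, v1, v2, v3, v4, c1, c2, c3]
    have f1 : A - 3 * (n : ℚ) - 3 * ((s + 1 : ℕ) : ℚ) - 3 = A - 3 * n - 3 * s - 6 := by
      push_cast
      ring
    have f2 : A + 1 - 3 * (n : ℚ) - 3 * ((s + 1 : ℕ) : ℚ) - 3 = A - 3 * n - 3 * s - 5 := by
      push_cast
      ring
    have f3 : A + 1 - 3 * ((n + 1 : ℕ) : ℚ) - 3 * (s : ℚ) - 3 = A - 3 * n - 3 * s - 5 := by
      push_cast
      ring
    rw [f1, f2, f3]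
    exact key

end Pool.Agent.GV
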