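import Pool.Agent.GV.CM.Ratio

/-!
# GV-CM-R3a: contiguous relation for `U⁻¹`, `e = 0`

`U⁻¹_a(j, n) + U⁻¹_a(j-1, n) = h U⁻¹_{a+1}(j, n) + U⁻¹_{a+1}(j, n+1)`, `h = D_a(n)/D_{a+1}(n)`;
written with `j = m + 1`, `n = j + r`.  (Checked numerically.)

Plan.  `A = (a : ℚ)`, `n = m + 1 + r`.  Common products:
* numerators: `p = P (2A-3m-2r-4) r`: the four terms have `p`,
  `P (2A-3m-2r-3) (r+1) = (2A-3m-2r-3) p`, `P (2A-3m-2r-2) r`, `P (2A-3m-2r-4) (r+1) =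
  p (2A-3m-3r-4)`; `hh` contains `(2A-3n+1)(2A-3n)` (here `2A-3n = 2A-3m-3r-3`) and
  `P (2A-3m-2r-2) r (2A-3n+1)(2A-3n) = P (2A-3m-2r-2) (r+2) = (2A-3m-2r-2)(2A-3m-2r-3) p`;
* binomials: `c = C(m+2r, 2r)`; `C(m+2r+1, 2r+2)` by `choose_two_one`, `C(m+2r+2, 2r+2)` by
  `choose_two_two` (file Basic) with `N = m+2r`, `K = 2r`;
* denominators `P`: `q = P (A-2m-2-r) r`; `P (A-2m-r-1) (r+1) = (A-2m-r-1) q
  = P (A-2m-1-r) r (A-2m-1-2r)`; `P (A-2m-2-r) (r+1) = q (A-2m-2-2r)`;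
* denominators `O`: `o = O (2A-2m-3) r`; `O (2A-2m-1) (r+1) = (2A-2m-1) o
  = O (2A-2m-1) r (2A-2m-1-2r)`;
* `df_succ`.
All denominators are non-zero because `2 (m + 1 + r) < a` (`P_ne_zero`, `O_ne_zero`).
Then `field_simp; ring` (generalise the common products to variables first).
-/

namespace Pool.Agent.GV

theorem R3a (a m r : ℕ) (ha : 2 * (m + 1 + r) < a) :
    Utf0 (a : ℚ) (m + 1) r + Utf0 (a : ℚ) m (r + 1) =
      hh false a (m + 1 + r) * Utf0 ((a : ℚ) + 1) (m + 1) r +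
        Utf0 ((a : ℚ) + 1) (m + 1) (r + 1) := by
  have ha' : 2 * ((m : ℚ) + 1 + r) + 1 ≤ a := by exact_mod_cast ha
  have hm0 : (0 : ℚ) ≤ m := by positivity
  have hr0 : (0 : ℚ) ≤ r := by positivity
  have e1 : m + 1 + 2 * r - 1 = m + 2 * r := by omega
  have e2 : m + (2 * r + 2) - 1 = m + 2 * r + 1 := by omega
  have e3 : m + 1 + (2 * r + 2) - 1 = m + 2 * r + 2 := by omega
  have e4 : 2 * (r + 1) = 2 * r + 2 := by omega
  have hc1 := choose_two_one (m + 2 * r) (2 * r)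
  have hc2 := choose_two_two (m + 2 * r) (2 * r)
  unfold Utf0 hh
  simp only [cond_false, e1, e2, e3, e4, df_succ]
  push_cast at hc1 hc2 ⊢
  generalize (a : ℚ) = A at *
  -- numerators
  have p0 : P (2 * A - 3 * ((m : ℚ) + 1) - 2 * r - 1) r = P (2 * A - 3 * m - 2 * r - 4) r := by
    congr 1; ring
  have p1 : P (2 * A - 3 * (m : ℚ) - 2 * ((r : ℚ) + 1) - 1) (r + 1) =
      (2 * A - 3 * m - 2 * r - 3) * P (2 * A - 3 * m - 2 * r - 4) r := by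
    rw [P_succ']
    have : 2 * A - 3 * (m : ℚ) - 2 * ((r : ℚ) + 1) - 1 - 1 = 2 * A - 3 * m - 2 * r - 4 := by ring
    rw [this]; ring
  have p2 : P (2 * (A + 1) - 3 * ((m : ℚ) + 1) - 2 * ((r : ℚ) + 1) - 1) (r + 1) =
      P (2 * A - 3 * m - 2 * r - 4) r * (2 * A - 3 * m - 3 * r - 4) := by
    have : 2 * (A + 1) - 3 * ((m : ℚ) + 1) - 2 * ((r : ℚ) + 1) - 1 = 2 * A - 3 * m - 2 * r - 4 := by
      ring
    rw [this, P_succ]; ring
  have p3 : P (2 * (A + 1) - 3 * ((m : ℚ) + 1) - 2 * r - 1) r *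
      ((2 * A - 3 * m - 3 * r - 2) * (2 * A - 3 * m - 3 * r - 3)) =
      (2 * A - 3 * m - 2 * r - 2) * (2 * A - 3 * m - 2 * r - 3) *
        P (2 * A - 3 * m - 2 * r - 4) r := by
    have h0 : 2 * (A + 1) - 3 * ((m : ℚ) + 1) - 2 * r - 1 = 2 * A - 3 * m - 2 * r - 2 := by ring
    have h1 : P (2 * A - 3 * m - 2 * r - 2) (r + 2) = P (2 * A - 3 * m - 2 * r - 2) r *
        ((2 * A - 3 * m - 3 * r - 2) * (2 * A - 3 * m - 3 * r - 3)) := by
      rw [show r + 2 = r + 1 + 1 from rfl, P_succ, P_succ]; push_cast; ring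
    have h2 : P (2 * A - 3 * m - 2 * r - 2) (r + 2) =
        (2 * A - 3 * m - 2 * r - 2) * (2 * A - 3 * m - 2 * r - 3) *
          P (2 * A - 3 * m - 2 * r - 4) r := by
      have h3 : 2 * A - 3 * (m : ℚ) - 2 * r - 2 - 1 - 1 = 2 * A - 3 * m - 2 * r - 4 := by ring
      rw [show r + 2 = r + 1 + 1 from rfl, P_succ', P_succ', h3]; ring
    rw [h0, ← h1, h2]
  -- denominators P
  have q0 : P (A - 2 * ((m : ℚ) + 1) - r) r = P (A - 2 * m - 2 - r) r := by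
    congr 1; ring
  have q1 : P (A - 2 * (m : ℚ) - ((r : ℚ) + 1)) (r + 1) =
      (A - 2 * m - r - 1) * P (A - 2 * m - 2 - r) r := by
    rw [P_succ']
    have : A - 2 * (m : ℚ) - ((r : ℚ) + 1) - 1 = A - 2 * m - 2 - r := by ring
    rw [this]; ring
  have q2 : P (A + 1 - 2 * ((m : ℚ) + 1) - ((r : ℚ) + 1)) (r + 1) =
      P (A - 2 * m - 2 - r) r * (A - 2 * m - 2 - 2 * r) := by
    have : A + 1 - 2 * ((m : ℚ) + 1) - ((r : ℚ) + 1) = A - 2 * m - 2 - r := by ring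
    rw [this, P_succ]; ring
  have q3 : P (A + 1 - 2 * ((m : ℚ) + 1) - r) r * (A - 2 * m - 1 - 2 * r) =
      (A - 2 * m - r - 1) * P (A - 2 * m - 2 - r) r := by
    have h0 : A + 1 - 2 * ((m : ℚ) + 1) - r = A - 2 * (m : ℚ) - ((r : ℚ) + 1) := by ring
    rw [← q1, h0, P_succ]; ring
  -- denominators O
  have o0 : O (2 * A - 2 * ((m : ℚ) + 1) - 1) r = O (2 * A - 2 * m - 3) r := by
    congr 1; ring
  have o1 : O (2 * A - 2 * (m : ℚ) - 1) (r + 1) =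
      (2 * A - 2 * m - 1) * O (2 * A - 2 * m - 3) r := by
    rw [O_succ']
    have : 2 * A - 2 * (m : ℚ) - 1 - 2 = 2 * A - 2 * m - 3 := by ring
    rw [this]
  have o2 : O (2 * (A + 1) - 2 * ((m : ℚ) + 1) - 1) (r + 1) =
      (2 * A - 2 * m - 1) * O (2 * A - 2 * m - 3) r := by
    rw [← o1]; congr 1; ring
  have o3 : O (2 * (A + 1) - 2 * ((m : ℚ) + 1) - 1) r * (2 * A - 2 * m - 1 - 2 * r) =
      (2 * A - 2 * m - 1) * O (2 * A - 2 * m - 3) r := by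
    rw [← o2, O_succ]; ring
  have hq : P (A - 2 * m - 2 - r) r ≠ 0 := P_ne_zero (by linarith)
  have ho : O (2 * A - 2 * m - 3) r ≠ 0 := O_ne_zero (by linarith)
  have hq3 : P (A + 1 - 2 * ((m : ℚ) + 1) - r) r ≠ 0 := P_ne_zero (by linarith)
  have ho3 : O (2 * (A + 1) - 2 * ((m : ℚ) + 1) - 1) r ≠ 0 := O_ne_zero (by linarith)
  rw [p0, p1, p2, q0, q1, q2, o0, o1, o2]
  generalize P (2 * A - 3 * m - 2 * r - 4) r = p at *
  generalize P (2 * (A + 1) - 3 * ((m : ℚ) + 1) - 2 * r - 1) r = pp at *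
  generalize P (A - 2 * m - 2 - r) r = q at *
  generalize P (A + 1 - 2 * ((m : ℚ) + 1) - r) r = qq at *
  generalize O (2 * A - 2 * m - 3) r = o at *
  generalize O (2 * (A + 1) - 2 * ((m : ℚ) + 1) - 1) r = oo at *
  generalize ((m + 2 * r).choose (2 * r) : ℚ) = c at *
  generalize ((m + 2 * r + 1).choose (2 * r + 2) : ℚ) = c1 at *
  generalize ((m + 2 * r + 2).choose (2 * r + 2) : ℚ) = c2 at *
  generalize df r = d at *
  generalize (m : ℚ) = M at *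
  generalize (r : ℚ) = R at *
  clear p0 p1 p2 q0 q1 q2 o0 o1 o2 e1 e2 e3 e4
  have n1 : A - 2 * M - R - 1 ≠ 0 := (by linarith : (0:ℚ) < A - 2 * M - R - 1).ne'
  have n2 : 2 * A - 2 * M - 1 ≠ 0 := (by linarith : (0:ℚ) < 2 * A - 2 * M - 1).ne'
  have n3 : A - 2 * M - 2 - 2 * R ≠ 0 := (by linarith : (0:ℚ) < A - 2 * M - 2 - 2 * R).ne'
  have n4 : 2 * R + 1 ≠ 0 := (by linarith : (0:ℚ) < 2 * R + 1).ne'
  have n5 : 2 * R + 2 ≠ 0 := (by linarith : (0:ℚ) < 2 * R + 2).ne'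
  have hT3 : (A - 3 * (M + 1 + R) + 1) * (2 * A - 3 * (M + 1 + R) + 1) *
          (2 * A - 3 * (M + 1 + R)) /
          (2 * (A - 2 * (M + 1 + R)) * (A - 2 * (M + 1 + R) + 1) *
            (2 * A - 2 * (M + 1 + R) + 1)) * (d * c * pp / (qq * oo)) =
      (A - 3 * (M + 1 + R) + 1) *
          ((2 * A - 3 * M - 2 * R - 2) * (2 * A - 3 * M - 2 * R - 3) * p) * d * c /
        (2 * (A - 2 * M - 2 - 2 * R) * ((A - 2 * M - R - 1) * q) *
          ((2 * A - 2 * M - 1) * o)) := by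
    rw [div_mul_div_comm]
    congr 1
    · linear_combination (A - 3 * (M + 1 + R) + 1) * d * c * p3
    · linear_combination 2 * (A - 2 * (M + 1 + R)) *
        (oo * (2 * A - 2 * M - 1 - 2 * R) * q3 + (A - 2 * M - R - 1) * q * o3)
  have hc1' : c1 = c * ((M + 2 * R + 1) * M) / ((2 * R + 1) * (2 * R + 2)) := by
    rw [eq_div_iff (mul_ne_zero n4 n5), hc1]; ring
  have hc2' : c2 = c * ((M + 2 * R + 1) * (M + 2 * R + 2)) / ((2 * R + 1) * (2 * R + 2)) := by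
    rw [eq_div_iff (mul_ne_zero n4 n5), hc2]
  rw [hT3, hc1', hc2']
  have n2' : 2 * (A - M) - 1 ≠ 0 := (by linarith : (0:ℚ) < 2 * (A - M) - 1).ne'
  field_simp
  ring

end Pool.Agent.GV
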