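import Pool.Agent.GV.CM.Ratio

/-!
# GV-CM-R3b: contiguous relation for `U⁻¹`, `e = 1`

`U⁻¹_a(j, n) + U⁻¹_a(j-1, n) = h U⁻¹_{a+1}(j, n) + U⁻¹_{a+1}(j, n+1)`, `h = D_a(n)/D_{a+1}(n)`;
written with `j = m + 1`, `n = j + r`.  (Checked numerically.)

Plan.  `A = (a : ℚ)`.  Case `r = 0` by hand (`Utf1_zero`, unfold the two others `Utf1 _ _ 1`).
Case `r = s + 1`, `n = m + 2 + s`.  The four terms are
`Utf1 A (m+1) (s+1)`, `Utf1 A m (s+2)`, `Utf1 (A+1) (m+1) (s+1)`, `Utf1 (A+1) (m+1) (s+2)` with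
* numerators: `(2A-3m-3) P (2A-3m-2s-6) s`, `(2A-3m) P (2A-3m-2s-5) (s+1)`,
  `(2A-3m-1) P (2A-3m-2s-4) s`, `(2A-3m-1) P (2A-3m-2s-6) (s+1)`; common product
  `p = P (2A-3m-2s-6) s`: `P (2A-3m-2s-5) (s+1) = (2A-3m-2s-5) p`,
  `P (2A-3m-2s-6) (s+1) = p (2A-3m-3s-6)`, and `hh` contains `(2A-3n+1)(2A-3n+2)` where
  `2A-3n = 2A-3m-3s-6`:
  `P (2A-3m-2s-4) s (2A-3m-3s-4)(2A-3m-3s-5) = P (2A-3m-2s-4) (s+2)
   = (2A-3m-2s-4)(2A-3m-2s-5) p`;
* binomials: `c = C(m+2s+2, 2s+2)`; `C(m+2s+3, 2s+4)` by `choose_two_one`,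
  `C(m+2s+4, 2s+4)` by `choose_two_two` with `N = m+2s+2`, `K = 2s+2`;
* denominators `P`: `q = P (A-2m-s-3) (s+1)`; `P (A-2m-s-2) (s+2) = (A-2m-s-2) q
  = P (A-2m-s-2) (s+1) (A-2m-2s-3)`; `P (A-2m-s-3) (s+2) = q (A-2m-2s-4)`;
* denominators `O`: `o = O (2A-2m-3) (s+1)`; `O (2A-2m-1) (s+2) = (2A-2m-1) o
  = O (2A-2m-1) (s+1) (2A-2m-2s-3)`;
* `df_succ`.
All denominators are non-zero because `2 (m + 1 + r) < a` (`P_ne_zero`, `O_ne_zero`).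
Then `field_simp; ring` (generalise the common products to variables first).
-/

namespace Pool.Agent.GV

private lemma Utf1_succ' (a : ℚ) (n s : ℕ) : Utf1 a n (s + 1) =
    df (s + 1) * ((n + 2 * s + 1).choose (2 * s + 2) : ℚ) * (2 * a - 3 * n) *
      P (2 * a - 3 * n - 2 * s - 3) s /
      (P (a - 2 * n - s - 1) (s + 1) * O (2 * a - 2 * n - 1) (s + 1)) := rfl

private lemma hh_true (a : ℚ) (n : ℕ) : hh true a n =
    (a - 3 * n) * (2 * a - 3 * n + 1) * (2 * a - 3 * n + 2) /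
      (2 * (a - 2 * n) * (a - 2 * n + 1) * (2 * a - 2 * n + 1)) := rfl

/-- the rational identity for `r ≥ 1` -/
private lemma final (A m s p c q o d x y z : ℚ) (hq : q ≠ 0) (ho : o ≠ 0)
    (hx : x = A - 2 * m - s - 2) (hy : y = 2 * A - 2 * m - 1) (hz : z = A - 2 * m - 2 * s - 4)
    (h1 : x ≠ 0) (h2 : y ≠ 0) (h3 : z ≠ 0) (h4 : 2 * s + 3 ≠ 0) (h5 : s + 2 ≠ 0) :
    d * c * (2 * A - 3 * m - 3) * p / (q * o) +
      d * (2 * s + 3) * (c * ((m + 2 * s + 3) * m) / ((2 * s + 3) * (2 * (s + 2)))) * (2 * A - 3 * m) *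
        ((2 * A - 3 * m - 2 * s - 5) * p) / ((x * q) * (y * o)) =
    (A - 3 * m - 3 * s - 6) * ((2 * A - 3 * m - 2 * s - 4) * (2 * A - 3 * m - 2 * s - 5) * p) * d * c *
        (2 * A - 3 * m - 1) / (2 * z * (x * q) * (y * o)) +
      d * (2 * s + 3) * (c * ((m + 2 * s + 3) * (m + 2 * s + 4)) / ((2 * s + 3) * (2 * (s + 2)))) *
        (2 * A - 3 * m - 1) * (p * (2 * A - 3 * m - 3 * s - 6)) / ((q * z) * (y * o)) := by
  field_simp
  rw [hx, hy, hz]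
  ring

private lemma final0 (A m x y z : ℚ)
    (hx : x = A - 2 * m - 1) (hy : y = 2 * A - 2 * m - 1) (hz : z = A - 2 * m - 2)
    (h1 : x ≠ 0) (h2 : y ≠ 0) (h3 : z ≠ 0) :
    1 + (m + 1) * m / 2 * (2 * A - 3 * m) / (x * y) =
      (A - 3 * m - 3) * (2 * A - 3 * m - 2) * (2 * A - 3 * m - 1) / (2 * z * x * y) * 1 +
        (m + 2) * (m + 1) / 2 * (2 * A - 3 * m - 1) / (z * y) := by
  field_simp
  rw [hx, hy, hz]
  ring

private lemma case_succ (a m s : ℕ) (ha : 2 * (m + 1 + (s + 1)) < a) :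
    Utf1 (a : ℚ) (m + 1) (s + 1) + Utf1 (a : ℚ) m (s + 1 + 1) =
      hh true a (m + 1 + (s + 1)) * Utf1 ((a : ℚ) + 1) (m + 1) (s + 1) +
        Utf1 ((a : ℚ) + 1) (m + 1) (s + 1 + 1) := by
  have haQ : (2 : ℚ) * ((m : ℚ) + 1 + ((s : ℚ) + 1)) < a := by exact_mod_cast ha
  have hs0 : (0 : ℚ) ≤ s := by positivity
  have hm0 : (0 : ℚ) ≤ m := by positivity
  set A : ℚ := (a : ℚ) with hA
  -- the four terms
  have hT1 : Utf1 A (m + 1) (s + 1) = df (s + 1) * ((m + 2 * s + 2).choose (2 * s + 2) : ℚ) *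
      (2 * A - 3 * m - 3) * P (2 * A - 3 * m - 2 * s - 6) s /
      (P (A - 2 * m - s - 3) (s + 1) * O (2 * A - 2 * m - 3) (s + 1)) := by
    rw [Utf1_succ']
    have e1 : 2 * A - 3 * ((m + 1 : ℕ) : ℚ) = 2 * A - 3 * m - 3 := by push_cast; ring
    have e2 : 2 * A - 3 * m - 3 - 2 * (s : ℚ) - 3 = 2 * A - 3 * m - 2 * s - 6 := by ring
    have e3 : A - 2 * ((m + 1 : ℕ) : ℚ) - s - 1 = A - 2 * m - s - 3 := by push_cast; ring
    have e4 : 2 * A - 2 * ((m + 1 : ℕ) : ℚ) - 1 = 2 * A - 2 * m - 3 := by push_cast; ring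
    have e5 : m + 1 + 2 * s + 1 = m + 2 * s + 2 := by ring
    rw [e1, e2, e3, e4, e5]
  have hT2 : Utf1 A m (s + 1 + 1) = df (s + 1) * (2 * s + 3) *
      ((m + 2 * s + 2 + 1).choose (2 * s + 2 + 2) : ℚ) * (2 * A - 3 * m) *
      ((2 * A - 3 * m - 2 * s - 5) * P (2 * A - 3 * m - 2 * s - 6) s) /
      (((A - 2 * m - s - 2) * P (A - 2 * m - s - 3) (s + 1)) *
        ((2 * A - 2 * m - 1) * O (2 * A - 2 * m - 3) (s + 1))) := by
    rw [Utf1_succ', df_succ (s + 1), P_succ' _ s, P_succ' _ (s + 1), O_succ' _ (s + 1)]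
    have e1 : 2 * A - 3 * (m : ℚ) - 2 * ((s + 1 : ℕ) : ℚ) - 3 = 2 * A - 3 * m - 2 * s - 5 := by
      push_cast; ring
    have e2 : 2 * A - 3 * (m : ℚ) - 2 * s - 5 - 1 = 2 * A - 3 * m - 2 * s - 6 := by ring
    have e3 : A - 2 * (m : ℚ) - ((s + 1 : ℕ) : ℚ) - 1 = A - 2 * m - s - 2 := by push_cast; ring
    have e4 : A - 2 * (m : ℚ) - s - 2 - 1 = A - 2 * m - s - 3 := by ring
    have e5 : 2 * A - 2 * (m : ℚ) - 1 - 2 = 2 * A - 2 * m - 3 := by ring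
    have e6 : m + 2 * (s + 1) + 1 = m + 2 * s + 2 + 1 := by ring
    have e7 : 2 * (s + 1) + 2 = 2 * s + 2 + 2 := by ring
    have e8 : 2 * ((s + 1 : ℕ) : ℚ) + 1 = 2 * s + 3 := by push_cast; ring
    rw [e1, e2, e3, e4, e5, e6, e7, e8]
  have hT3 : Utf1 (A + 1) (m + 1) (s + 1) = df (s + 1) * ((m + 2 * s + 2).choose (2 * s + 2) : ℚ) *
      (2 * A - 3 * m - 1) * P (2 * A - 3 * m - 2 * s - 4) s /
      (P (A - 2 * m - s - 2) (s + 1) * O (2 * A - 2 * m - 1) (s + 1)) := by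
    rw [Utf1_succ']
    have e1 : 2 * (A + 1) - 3 * ((m + 1 : ℕ) : ℚ) = 2 * A - 3 * m - 1 := by push_cast; ring
    have e2 : 2 * A - 3 * m - 1 - 2 * (s : ℚ) - 3 = 2 * A - 3 * m - 2 * s - 4 := by ring
    have e3 : A + 1 - 2 * ((m + 1 : ℕ) : ℚ) - s - 1 = A - 2 * m - s - 2 := by push_cast; ring
    have e4 : 2 * (A + 1) - 2 * ((m + 1 : ℕ) : ℚ) - 1 = 2 * A - 2 * m - 1 := by push_cast; ring
    have e5 : m + 1 + 2 * s + 1 = m + 2 * s + 2 := by ring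
    rw [e1, e2, e3, e4, e5]
  have hT4 : Utf1 (A + 1) (m + 1) (s + 1 + 1) = df (s + 1) * (2 * s + 3) *
      ((m + 2 * s + 2 + 2).choose (2 * s + 2 + 2) : ℚ) * (2 * A - 3 * m - 1) *
      (P (2 * A - 3 * m - 2 * s - 6) s * (2 * A - 3 * m - 3 * s - 6)) /
      ((P (A - 2 * m - s - 3) (s + 1) * (A - 2 * m - 2 * s - 4)) *
        ((2 * A - 2 * m - 1) * O (2 * A - 2 * m - 3) (s + 1))) := by
    rw [Utf1_succ', df_succ (s + 1), P_succ _ s, P_succ _ (s + 1), O_succ' _ (s + 1)]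
    have e1 : 2 * (A + 1) - 3 * ((m + 1 : ℕ) : ℚ) = 2 * A - 3 * m - 1 := by push_cast; ring
    have e2 : 2 * A - 3 * (m : ℚ) - 1 - 2 * ((s + 1 : ℕ) : ℚ) - 3 = 2 * A - 3 * m - 2 * s - 6 := by
      push_cast; ring
    have e2' : 2 * A - 3 * (m : ℚ) - 2 * s - 6 - s = 2 * A - 3 * m - 3 * s - 6 := by ring
    have e3 : A + 1 - 2 * ((m + 1 : ℕ) : ℚ) - ((s + 1 : ℕ) : ℚ) - 1 = A - 2 * m - s - 3 := by
      push_cast; ring
    have e4 : A - 2 * (m : ℚ) - s - 3 - ((s + 1 : ℕ) : ℚ) = A - 2 * m - 2 * s - 4 := by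
      push_cast; ring
    have e5 : 2 * (A + 1) - 2 * ((m + 1 : ℕ) : ℚ) - 1 = 2 * A - 2 * m - 1 := by push_cast; ring
    have e5' : 2 * A - 2 * (m : ℚ) - 1 - 2 = 2 * A - 2 * m - 3 := by ring
    have e6 : m + 1 + 2 * (s + 1) + 1 = m + 2 * s + 2 + 2 := by ring
    have e7 : 2 * (s + 1) + 2 = 2 * s + 2 + 2 := by ring
    have e8 : 2 * ((s + 1 : ℕ) : ℚ) + 1 = 2 * s + 3 := by push_cast; ring
    rw [e1, e2, e2', e3, e4, e5, e5', e6, e7, e8]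
  -- relations
  have hP3 : P (2 * A - 3 * m - 2 * s - 4) s * (2 * A - 3 * m - 3 * s - 4) * (2 * A - 3 * m - 3 * s - 5) =
      (2 * A - 3 * m - 2 * s - 4) * (2 * A - 3 * m - 2 * s - 5) * P (2 * A - 3 * m - 2 * s - 6) s := by
    have k1 : P (2 * A - 3 * m - 2 * s - 4) (s + 1 + 1) =
        P (2 * A - 3 * m - 2 * s - 4) s * (2 * A - 3 * m - 3 * s - 4) * (2 * A - 3 * m - 3 * s - 5) := by
      rw [P_succ, P_succ]
      push_cast
      ring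
    have k2 : P (2 * A - 3 * m - 2 * s - 4) (s + 1 + 1) =
        (2 * A - 3 * m - 2 * s - 4) * (2 * A - 3 * m - 2 * s - 5) * P (2 * A - 3 * m - 2 * s - 6) s := by
      rw [P_succ', P_succ']
      have e1 : 2 * A - 3 * (m : ℚ) - 2 * s - 4 - 1 = 2 * A - 3 * m - 2 * s - 5 := by ring
      have e2 : 2 * A - 3 * (m : ℚ) - 2 * s - 5 - 1 = 2 * A - 3 * m - 2 * s - 6 := by ring
      rw [e1, e2]
      ring
    rw [← k1, k2]
  have hQ3 : P (A - 2 * m - s - 2) (s + 1) * (A - 2 * m - 2 * s - 3) =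
      (A - 2 * m - s - 2) * P (A - 2 * m - s - 3) (s + 1) := by
    have k1 := P_succ (A - 2 * m - s - 2) (s + 1)
    have k2 := P_succ' (A - 2 * m - s - 2) (s + 1)
    have e1 : A - 2 * (m : ℚ) - s - 2 - ((s + 1 : ℕ) : ℚ) = A - 2 * m - 2 * s - 3 := by push_cast; ring
    have e2 : A - 2 * (m : ℚ) - s - 2 - 1 = A - 2 * m - s - 3 := by ring
    rw [e1] at k1
    rw [e2] at k2
    rw [← k1, k2]
  have hO3 : O (2 * A - 2 * m - 1) (s + 1) * (2 * A - 2 * m - 2 * s - 3) =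
      (2 * A - 2 * m - 1) * O (2 * A - 2 * m - 3) (s + 1) := by
    have k1 := O_succ (2 * A - 2 * m - 1) (s + 1)
    have k2 := O_succ' (2 * A - 2 * m - 1) (s + 1)
    have e1 : 2 * A - 2 * (m : ℚ) - 1 - 2 * ((s + 1 : ℕ) : ℚ) = 2 * A - 2 * m - 2 * s - 3 := by
      push_cast; ring
    have e2 : 2 * A - 2 * (m : ℚ) - 1 - 2 = 2 * A - 2 * m - 3 := by ring
    rw [e1] at k1
    rw [e2] at k2
    rw [← k1, k2]
  have hs4 : (2 * (s : ℚ) + 3) ≠ 0 := by positivity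
  have hs5 : ((s : ℚ) + 2) ≠ 0 := by positivity
  have hC2 : ((m + 2 * s + 2 + 1).choose (2 * s + 2 + 2) : ℚ) =
      ((m + 2 * s + 2).choose (2 * s + 2) : ℚ) * ((m + 2 * s + 3) * m) / ((2 * s + 3) * (2 * (s + 2))) := by
    have k := choose_two_one (m + 2 * s + 2) (2 * s + 2)
    push_cast at k
    rw [eq_div_iff (mul_ne_zero hs4 (mul_ne_zero two_ne_zero hs5))]
    linear_combination k
  have hC4 : ((m + 2 * s + 2 + 2).choose (2 * s + 2 + 2) : ℚ) =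
      ((m + 2 * s + 2).choose (2 * s + 2) : ℚ) * ((m + 2 * s + 3) * (m + 2 * s + 4)) /
        ((2 * s + 3) * (2 * (s + 2))) := by
    have k := choose_two_two (m + 2 * s + 2) (2 * s + 2)
    push_cast at k
    rw [eq_div_iff (mul_ne_zero hs4 (mul_ne_zero two_ne_zero hs5))]
    linear_combination k
  have hH : hh true A (m + 1 + (s + 1)) * Utf1 (A + 1) (m + 1) (s + 1) =
      (A - 3 * m - 3 * s - 6) *
        ((2 * A - 3 * m - 2 * s - 4) * (2 * A - 3 * m - 2 * s - 5) * P (2 * A - 3 * m - 2 * s - 6) s) *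
        df (s + 1) * ((m + 2 * s + 2).choose (2 * s + 2) : ℚ) * (2 * A - 3 * m - 1) /
        (2 * (A - 2 * m - 2 * s - 4) * ((A - 2 * m - s - 2) * P (A - 2 * m - s - 3) (s + 1)) *
          ((2 * A - 2 * m - 1) * O (2 * A - 2 * m - 3) (s + 1))) := by
    rw [hT3, hh_true, div_mul_div_comm, ← hP3, ← hQ3, ← hO3]
    congr 1
    · push_cast
      ring
    · push_cast
      ring
  rw [hH, hT1, hT2, hT4, hC2, hC4]
  refine final A m s _ _ _ _ _ _ _ _ ?_ ?_ rfl rfl rfl ?_ ?_ ?_ hs4 hs5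
  · apply P_ne_zero
    push_cast
    linarith
  · apply O_ne_zero
    push_cast
    linarith
  · apply ne_of_gt; linarith
  · apply ne_of_gt; linarith
  · apply ne_of_gt; linarith

private lemma case_zero (a m : ℕ) (ha : 2 * (m + 1 + 0) < a) :
    Utf1 (a : ℚ) (m + 1) 0 + Utf1 (a : ℚ) m (0 + 1) =
      hh true a (m + 1 + 0) * Utf1 ((a : ℚ) + 1) (m + 1) 0 +
        Utf1 ((a : ℚ) + 1) (m + 1) (0 + 1) := by
  have haQ : (2 : ℚ) * ((m : ℚ) + 1 + 0) < a := by exact_mod_cast ha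
  have hm0 : (0 : ℚ) ≤ m := by positivity
  set A : ℚ := (a : ℚ) with hA
  have hC2 : ((m + 1).choose 2 : ℚ) = (m + 1) * m / 2 := by
    rw [Nat.cast_choose_two]
    push_cast
    ring
  have hC4 : ((m + 2).choose 2 : ℚ) = (m + 2) * (m + 1) / 2 := by
    rw [Nat.cast_choose_two]
    push_cast
    ring
  have hT2 : Utf1 A m (0 + 1) = (m + 1) * m / 2 * (2 * A - 3 * m) /
      ((A - 2 * m - 1) * (2 * A - 2 * m - 1)) := by
    rw [Utf1_succ', df_succ, P_zero, P_one, O_one, df_zero]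
    rw [show m + 2 * 0 + 1 = m + 1 by ring, show 2 * 0 + 2 = 2 by rfl, hC2]
    push_cast
    ring
  have hT4 : Utf1 (A + 1) (m + 1) (0 + 1) = (m + 2) * (m + 1) / 2 * (2 * A - 3 * m - 1) /
      ((A - 2 * m - 2) * (2 * A - 2 * m - 1)) := by
    rw [Utf1_succ', df_succ, P_zero, P_one, O_one, df_zero]
    rw [show m + 1 + 2 * 0 + 1 = m + 2 by ring, show 2 * 0 + 2 = 2 by rfl, hC4]
    have e1 : A + 1 - 2 * ((m + 1 : ℕ) : ℚ) - ((0 : ℕ) : ℚ) - 1 = A - 2 * m - 2 := by push_cast; ring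
    have e2 : 2 * (A + 1) - 2 * ((m + 1 : ℕ) : ℚ) - 1 = 2 * A - 2 * m - 1 := by push_cast; ring
    have e3 : 2 * (A + 1) - 3 * ((m + 1 : ℕ) : ℚ) = 2 * A - 3 * m - 1 := by push_cast; ring
    rw [e1, e2, e3]
    push_cast
    ring
  have hH : hh true A (m + 1 + 0) = (A - 3 * m - 3) * (2 * A - 3 * m - 2) * (2 * A - 3 * m - 1) /
      (2 * (A - 2 * m - 2) * (A - 2 * m - 1) * (2 * A - 2 * m - 1)) := by
    rw [hh_true]
    congr 1
    · push_cast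
      ring
    · push_cast
      ring
  rw [hT2, hT4, hH, Utf1_zero, Utf1_zero]
  have h1 : A - 2 * m - 1 ≠ 0 := by apply ne_of_gt; linarith
  have h2 : 2 * A - 2 * m - 1 ≠ 0 := by apply ne_of_gt; linarith
  have h3 : A - 2 * m - 2 ≠ 0 := by apply ne_of_gt; linarith
  exact final0 A m _ _ _ rfl rfl rfl h1 h2 h3

theorem R3b (a m r : ℕ) (ha : 2 * (m + 1 + r) < a) :
    Utf1 (a : ℚ) (m + 1) r + Utf1 (a : ℚ) m (r + 1) =
      hh true a (m + 1 + r) * Utf1 ((a : ℚ) + 1) (m + 1) r +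
        Utf1 ((a : ℚ) + 1) (m + 1) (r + 1) := by
  cases r with
  | zero => exact case_zero a m ha
  | succ s => exact case_succ a m s ha

end Pool.Agent.GV
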