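import Pool.Agent.GV.CM.Ratio
import Pool.Agent.GV.CM.R1a
import Pool.Agent.GV.CM.R1b
import Pool.Agent.GV.CM.R3a
import Pool.Agent.GV.CM.R3b
import Pool.Agent.GV.CM.Bshift

/-!
# GV-CM-I1: `B U⁻¹ = L D`

`∑_{j=1}^{n} B_a(l, j) U⁻¹_a(j, n) = L_a(l, n) D_a(n)` for `n + l < a`, `2 n ≤ a`, `n ≥ 1`.

Plan.  Induction on `n ≥ 1` for all `a`, `l`.
Base `n = 1`: `U⁻¹(1,1) = 1`; `l = 0`: both sides `0` (`B_row_zero`, `lowM` with `l < n`);
`l = r + 1`: `B0_col_one`, `B1_col_one` of file Bshift against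
`Lf0 A 1 r * D0 A 1`, `D0 A 1 = -(2A-3)`, `Lf0 A 1 r = P (A+r-2) (2r) / cc 1 r` (the factors
`P (A-3) r` cancel, non-zero since `l + 1 < a`), `cc 1 r = (2r+1)!` (small induction).
`e = 1`: `D1 A 1 = -(A-3)`, `Lf1 A 1 (s+1) = P (A-1+s) (2s+2) (A-3s-6) P (A-4) s /
 (P (A-3) (s+1) cc 1 (s+1))`, `P (A-3) (s+1) = (A-3) P (A-4) s`.
Step `n → n+1`, from `a` to `a + 1` (so the claim for `(a', n+1, l)` has `a' = a + 1`, `a ≥ 2n+1`,
`n + l < a`): by R3 (files R3a, R3b), `U⁻¹_{a+1}(j, n+1) = U⁻¹_a(j, n) + U⁻¹_a(j-1, n) -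
 h U⁻¹_{a+1}(j, n)` for `1 ≤ j ≤ n+1` (for `j = 1` the term `U⁻¹_a(0, n)` is `Utf e a 0 n`, which
is `0` because of the binomial `C(2n-1, 2n)`; for `j = n+1` it reads `1 = 0 + 1 - 0`).  Hence
`∑_j B_{a+1}(l,j) U⁻¹_{a+1}(j,n+1)
 = ∑_j (B_{a+1}(l,j) + B_{a+1}(l,j+1)) U⁻¹_a(j,n) - h L_{a+1}(l,n) D_{a+1}(n)`
`= ∑_j (B_a(l,j) + B_a(l-1,j)) U⁻¹_a(j,n) - L_{a+1}(l,n) D_a(n)`   (`B_shift`, `D_hh`)
`= (L_a(l,n) + L_a(l-1,n) - L_{a+1}(l,n)) D_a(n) = η L_{a+1}(l,n+1) D_a(n)`   (R1)
`= L_{a+1}(l,n+1) D_{a+1}(n+1)`   (`D_ee`).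
For `l < n` all `L` vanish, for `l = n` R1 is `1 + 0 = 1 + 0`, for `l = 0` use `B_row_zero`.
-/

namespace Pool.Agent.GV

theorem cc_one (r : ℕ) : cc 1 r = ((2 * r + 1).factorial : ℚ) := by
  induction r with
  | zero => simp
  | succ r ih =>
    rw [cc_succ, ih, show 2 * (r + 1) + 1 = (2 * r + 1) + 1 + 1 by ring,
      Nat.factorial_succ (2 * r + 1 + 1), Nat.factorial_succ (2 * r + 1)]
    push_cast
    generalize ((2 * r + 1).factorial : ℚ) = F
    ring

private lemma upp_of_le (f : ℕ → ℕ → ℚ) (j r : ℕ) : uppM f j (j + r) = f j r := by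
  unfold uppM
  rw [if_neg (by omega), Nat.add_sub_cancel_left]

private lemma upp_of_lt (f : ℕ → ℕ → ℚ) {j n : ℕ} (h : n < j) : uppM f j n = 0 := by
  unfold uppM
  rw [if_pos h]

private lemma low_of_le (f : ℕ → ℕ → ℚ) (n r : ℕ) : lowM f (n + r) n = f n r := by
  unfold lowM
  rw [if_neg (by omega), Nat.add_sub_cancel_left]

private lemma low_of_lt (f : ℕ → ℕ → ℚ) {l n : ℕ} (h : l < n) : lowM f l n = 0 := by
  unfold lowM
  rw [if_pos h]

private lemma upp_zero (e : Bool) (a : ℚ) (n : ℕ) (hn : 1 ≤ n) : uppM (Utf e a) 0 n = 0 := by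
  obtain ⟨s, rfl⟩ : ∃ s, n = s + 1 := ⟨n - 1, by omega⟩
  have h0 := upp_of_le (Utf e a) 0 (s + 1)
  rw [zero_add] at h0
  rw [h0]
  cases e
  · have h1 : (0 + 2 * (s + 1) - 1).choose (2 * (s + 1)) = 0 := Nat.choose_eq_zero_of_lt (by omega)
    simp only [Utf, cond_false, Utf0, h1]
    simp
  · have h1 : (0 + 2 * s + 1).choose (2 * s + 2) = 0 := Nat.choose_eq_zero_of_lt (by omega)
    simp only [Utf, cond_true, Utf1, h1]
    simp

private lemma upp_rec (e : Bool) (a n j : ℕ) (ha : 2 * n < a) (hj : 1 ≤ j) (hj' : j ≤ n + 1) :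
    uppM (Utf e ((a : ℚ) + 1)) j (n + 1) = uppM (Utf e (a : ℚ)) j n +
      uppM (Utf e (a : ℚ)) (j - 1) n - hh e a n * uppM (Utf e ((a : ℚ) + 1)) j n := by
  obtain ⟨m, rfl⟩ : ∃ m, j = m + 1 := ⟨j - 1, by omega⟩
  rw [Nat.add_sub_cancel]
  rcases Nat.lt_or_ge n (m + 1) with h | h
  · have hm : m = n := by omega
    subst hm
    have h1 := upp_of_le (Utf e ((a : ℚ) + 1)) (m + 1) 0
    have h2 := upp_of_le (Utf e (a : ℚ)) m 0
    rw [add_zero] at h1 h2
    rw [h1, h2, upp_of_lt _ h, upp_of_lt _ h, Utf_zero, Utf_zero]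
    ring
  · obtain ⟨r, rfl⟩ : ∃ r, n = m + 1 + r := ⟨n - (m + 1), by omega⟩
    have h1 := upp_of_le (Utf e ((a : ℚ) + 1)) (m + 1) (r + 1)
    have h2 := upp_of_le (Utf e (a : ℚ)) (m + 1) r
    have h3 := upp_of_le (Utf e (a : ℚ)) m (r + 1)
    have h4 := upp_of_le (Utf e ((a : ℚ) + 1)) (m + 1) r
    rw [← add_assoc] at h1
    rw [show m + (r + 1) = m + 1 + r by ring] at h3
    rw [h1, h2, h3, h4]
    cases e
    · have := R3a a m r ha
      simp only [Utf, cond_false]
      push_cast at this ⊢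
      linarith
    · have := R3b a m r ha
      simp only [Utf, cond_true]
      push_cast at this ⊢
      linarith

private lemma base (e : Bool) (a l : ℕ) (h : 1 + l < a) :
    B e (a : ℚ) l 1 = lowM (Lf e (a : ℚ)) l 1 * Dd e (a : ℚ) 1 := by
  rcases l with _ | r
  · rw [B_row_zero e a 1 le_rfl, low_of_lt _ (by omega), zero_mul]
  · have ha : (r : ℚ) + 3 ≤ a := by
      have : r + 3 ≤ a := by omega
      exact_mod_cast this
    have hl := low_of_le (Lf e (a : ℚ)) 1 r
    rw [add_comm 1 r] at hl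
    rw [hl]
    have hf : ((2 * r + 1).factorial : ℚ) ≠ 0 := by exact_mod_cast Nat.factorial_ne_zero _
    cases e
    · simp only [B, Lf, Dd, cond_false]
      rw [B0_col_one]
      have hP : P ((a : ℚ) - 2 * 1 - 1) r ≠ 0 := P_ne_zero (by linarith)
      have h3 : P ((a : ℚ) - 3 * 1) r = P ((a : ℚ) - 2 * 1 - 1) r := by
        congr 1; ring
      have h4 : (a : ℚ) - 1 - 1 + r = a + r - 2 := by ring
      have hL : Lf0 (a : ℚ) 1 r = P (a + r - 2) (2 * r) / ((2 * r + 1).factorial : ℚ) := by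
        unfold Lf0
        rw [cc_one, Nat.cast_one, h3, h4]
        generalize P ((a : ℚ) - 2 * 1 - 1) r = p at hP
        generalize P ((a : ℚ) + r - 2) (2 * r) = q
        field_simp
      have hD : D0 (a : ℚ) 1 = -(2 * (a : ℚ) - 3) := by
        unfold D0
        simp only [Nat.cast_one, Nat.sub_self, P_zero, O_one, df_zero,
          show df 1 = df 0 * (2 * ((0 : ℕ) : ℚ) + 1) from df_succ 0]
        push_cast
        ring
      rw [hL, hD]
      ring
    · simp only [B, Lf, Dd, cond_true]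
      rw [B1_col_one]
      have h2a : 2 * (a : ℚ) - 3 * 1 ≠ 0 := by
        have : (0 : ℚ) ≤ r := by positivity
        intro h0
        linarith
      have hD : D1 (a : ℚ) 1 = -((a : ℚ) - 3) := by
        unfold D1
        simp only [Nat.cast_one, P_one, O_one,
          show df 1 = df 0 * (2 * ((0 : ℕ) : ℚ) + 1) from df_succ 0, df_zero]
        have h5 : 2 * (a : ℚ) - 2 * 1 - 1 = 2 * (a : ℚ) - 3 * 1 := by ring
        rw [h5, mul_div_assoc, div_self h2a]
        push_cast
        ring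
      rw [hD]
      rcases r with _ | s
      · simp
      · have hP : P ((a : ℚ) - 3) (s + 1) ≠ 0 := P_ne_zero (by push_cast at ha ⊢; linarith)
        have hP2 : P ((a : ℚ) - 3) (s + 1) = ((a : ℚ) - 3) * P ((a : ℚ) - 3 - 1) s := P_succ' _ _
        rw [hP2] at hP
        have hP3 : ((a : ℚ) - 3) ≠ 0 := left_ne_zero_of_mul hP
        have hP4 : P ((a : ℚ) - 3 - 1) s ≠ 0 := right_ne_zero_of_mul hP
        simp only [Lf1, Nat.cast_one]
        have e1 : (a : ℚ) - 2 * 1 - 1 = a - 3 := by ring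
        have e2 : (a : ℚ) - 3 * 1 - 1 = a - 3 - 1 := by ring
        have e3 : (a : ℚ) - 1 + s = a + ((s + 1 : ℕ) : ℚ) - 2 := by push_cast; ring
        have e4 : 2 * (s + 1) = 2 * s + 2 := by ring
        rw [e1, e2, e3, hP2, cc_one, e4]
        rw [e4] at hf
        field_simp
        push_cast
        ring

theorem BUt (e : Bool) (n : ℕ) (hn : 1 ≤ n) :
    ∀ a l : ℕ, n + l < a → 2 * n ≤ a →
      ∑ j ∈ Finset.Icc 1 n, B e (a : ℚ) l j * uppM (Utf e (a : ℚ)) j n =
        lowM (Lf e (a : ℚ)) l n * Dd e (a : ℚ) n := by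
  induction n, hn using Nat.le_induction with
  | base =>
    intro a l h _
    rw [Finset.Icc_self, Finset.sum_singleton, upp_of_le (Utf e (a : ℚ)) 1 0, Utf_zero, mul_one]
    exact base e a l h
  | succ n hn ih =>
    intro a' l h1 h2
    obtain ⟨a, rfl⟩ : ∃ a, a' = a + 1 := ⟨a' - 1, by omega⟩
    rcases l with _ | l
    · rw [low_of_lt _ (by omega), zero_mul]
      refine Finset.sum_eq_zero fun j hj => ?_
      rw [B_row_zero e _ j (Finset.mem_Icc.1 hj).1, zero_mul]
    · have hI1 := ih (a + 1) (l + 1) (by omega) (by omega)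
      have hI2 := ih a (l + 1) (by omega) (by omega)
      have hI3 := ih a l (by omega) (by omega)
      push_cast at hI1 ⊢
      set A : ℚ := (a : ℚ) with hA
      have hrec : ∀ j ∈ Finset.Icc 1 (n + 1), B e (A + 1) (l + 1) j * uppM (Utf e (A + 1)) j (n + 1) =
          B e (A + 1) (l + 1) j * uppM (Utf e A) j n +
          B e (A + 1) (l + 1) j * uppM (Utf e A) (j - 1) n -
            hh e A n * (B e (A + 1) (l + 1) j * uppM (Utf e (A + 1)) j n) := by
        intro j hj
        rw [Finset.mem_Icc] at hj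
        rw [upp_rec e a n j (by omega) hj.1 hj.2]
        ring
      rw [Finset.sum_congr rfl hrec, Finset.sum_sub_distrib, Finset.sum_add_distrib,
        ← Finset.mul_sum]
      have hs1 : ∀ g : ℕ → ℚ, (∀ j, n < j → g j = 0) →
          ∑ j ∈ Finset.Icc 1 (n + 1), g j = ∑ j ∈ Finset.Icc 1 n, g j := by
        intro g hg
        rw [Finset.sum_Icc_succ_top (by omega), hg (n + 1) (by omega), add_zero]
      rw [hs1 (fun j => B e (A + 1) (l + 1) j * uppM (Utf e A) j n)
          (fun j hj => by rw [upp_of_lt _ hj, mul_zero]),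
        hs1 (fun j => B e (A + 1) (l + 1) j * uppM (Utf e (A + 1)) j n)
          (fun j hj => by rw [upp_of_lt _ hj, mul_zero]), hI1]
      have hs2 : ∑ j ∈ Finset.Icc 1 (n + 1), B e (A + 1) (l + 1) j * uppM (Utf e A) (j - 1) n =
          ∑ j ∈ Finset.Icc 1 n, B e (A + 1) (l + 1) (j + 1) * uppM (Utf e A) j n := by
        have e1 : ∑ j ∈ Finset.Icc 1 (n + 1), B e (A + 1) (l + 1) j * uppM (Utf e A) (j - 1) n =
            ∑ j ∈ Finset.Icc 0 n, B e (A + 1) (l + 1) (j + 1) * uppM (Utf e A) j n := by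
          symm
          refine Finset.sum_bij (fun j _ => j + 1) ?_ ?_ ?_ ?_
          · intro j hj
            rw [Finset.mem_Icc] at hj ⊢
            omega
          · intro j _ k _ hjk
            omega
          · intro j hj
            rw [Finset.mem_Icc] at hj
            exact ⟨j - 1, Finset.mem_Icc.2 ⟨by omega, by omega⟩, by omega⟩
          · intro j _
            rw [Nat.add_sub_cancel]
        rw [e1]
        symm
        refine Finset.sum_subset (fun j hj => ?_) (fun j hj hj' => ?_)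
        · rw [Finset.mem_Icc] at hj ⊢
          omega
        · rw [Finset.mem_Icc] at hj hj'
          have : j = 0 := by omega
          subst this
          rw [upp_zero e A n hn, mul_zero]
      rw [hs2, ← Finset.sum_add_distrib]
      have hsh : ∀ j ∈ Finset.Icc 1 n, B e (A + 1) (l + 1) j * uppM (Utf e A) j n +
          B e (A + 1) (l + 1) (j + 1) * uppM (Utf e A) j n =
          B e A (l + 1) j * uppM (Utf e A) j n + B e A l j * uppM (Utf e A) j n := by
        intro j _
        rw [← add_mul, B_shift, add_mul]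
      rw [Finset.sum_congr rfl hsh, Finset.sum_add_distrib, hI2, hI3]
      have hD := D_hh e a n hn (by omega)
      have hD' : hh e A n * (lowM (Lf e (A + 1)) (l + 1) n * Dd e (A + 1) n) =
          lowM (Lf e (A + 1)) (l + 1) n * Dd e A n := by
        rw [hA, hD]
        ring
      rw [hD']
      rcases Nat.lt_or_ge l n with hl | hl
      · rw [low_of_lt (Lf e (A + 1)) (show l + 1 < n + 1 by omega), low_of_lt (Lf e A) hl]
        rcases Nat.lt_or_ge (l + 1) n with hl' | hl'
        · rw [low_of_lt (Lf e (A + 1)) hl', low_of_lt (Lf e A) hl']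
          ring
        · have hln : l + 1 = n := by omega
          have g1 := low_of_le (Lf e A) n 0
          have g2 := low_of_le (Lf e (A + 1)) n 0
          rw [add_zero] at g1 g2
          rw [hln, g1, g2, Lf_zero, Lf_zero]
          ring
      · obtain ⟨r, rfl⟩ : ∃ r, l = n + r := ⟨l - n, by omega⟩
        have g1 := low_of_le (Lf e A) n (r + 1)
        have g2 := low_of_le (Lf e A) n r
        have g3 := low_of_le (Lf e (A + 1)) n (r + 1)
        have g4 := low_of_le (Lf e (A + 1)) (n + 1) r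
        rw [← add_assoc] at g1 g3
        rw [show n + 1 + r = n + r + 1 by ring] at g4
        rw [g1, g2, g3, g4]
        have hE := D_ee e a n hn (by omega)
        rw [← hA] at hE
        rw [hE]
        have hR : Lf e A n (r + 1) + Lf e A n r =
            Lf e (A + 1) n (r + 1) + ee e A n * Lf e (A + 1) (n + 1) r := by
          cases e
          · exact R1a a n r (by omega)
          · exact R1b a n r (by omega)
        linear_combination Dd e A n * hR

end Pool.Agent.GV
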