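import Pool.Agent.GV.CM.Ratio

/-!
# GV-CM-R2a: contiguous relation for `U`, `e = 0`

`U_{a+1}(n, n+r) + U_{a+1}(n, n+r+1) = h U_a(n, n+r) + U_a(n-1, n+r)`, `h = D_a(n)/D_{a+1}(n)`;
written with `n = m + 1`.  (Checked numerically.)

Plan.  `A = (a : ℚ)`, `n = m + 1`.  Case `r = 0` by hand (`Uf0_zero`, unfold the others).
Case `r = s + 1`: write the four terms with these common products:
* numerators: `p = P (2A-3n+1) s`:
  `Uf0 (A+1) n (s+1)` has `(2A-3n-3s-1) p`, `Uf0 (A+1) n (s+2)` has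
  `(2A-3n-3s-4) P (2A-3n+1) (s+1) = (2A-3n-3s-4) p (2A-3n+1-s)`,
  `Uf0 A n (s+1)` has `(2A-3n-3s-3) P (2A-3n-1) s` and `hh` contains `(2A-3n+1)(2A-3n)` with
  `(2A-3n+1)(2A-3n) P (2A-3n-1) s = P (2A-3n+1) (s+2) = p (2A-3n+1-s)(2A-3n-s)`,
  `Uf0 A (n-1) (s+2)` has `(2A-3n-3s-3) P (2A-3n+2) (s+1) = (2A-3n-3s-3)(2A-3n+2) p`;
* binomials: `c = C(n+s+1, 2s+2)`: `choose_two`, `choose_two_one` of file Basic
  (with `N = n+s+1 = m+s+2`, `K = 2s+2`);
* denominators: `P (A-2n) (s+1)`, `P (A-2n) (s+2)`, `P (A-2n-1) (s+1)`, `P (A-2n+1) (s+2)`: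
  `(A-2n) P (A-2n-1) (s+1) = P (A-2n) (s+2) = P (A-2n) (s+1) (A-2n-s-1)`,
  `P (A-2n+1) (s+2) = (A-2n+1) P (A-2n) (s+1)`;
  `O (2A-2n+1) (s+1)`, `O (2A-2n+1) (s+2)`, `O (2A-2n-1) (s+1)`:
  `O (2A-2n+1) (s+2) = (2A-2n+1) O (2A-2n-1) (s+1) = O (2A-2n+1) (s+1) (2A-2n-2s-1)`;
* `df_succ`.
All denominators are non-zero because `2 n + r < a` (`P_ne_zero`, `O_ne_zero`).
Then `field_simp; ring` (generalise the common products to variables first).
-/

namespace Pool.Agent.GV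

private lemma R2a_zero (A M x y z w c1 c2 : ℚ) (h1 : c1 = (M + 2) * (M + 1) / 2)
    (h2 : c2 = (M + 1) * M / 2) (hx : x ≠ 0) (hy : y ≠ 0) (hz : z ≠ 0) (hw : w ≠ 0)
    (ex : x = A - 2 * (M + 1)) (ey : y = 2 * A - 2 * (M + 1) + 1) (ez : z = A - 2 * (M + 1) + 1)
    (ew : w = 2) :
    1 + (-1) * c1 * (2 * (A + 1) - 3 * (M + 1) - 3) / (x * y) =
      (A - 3 * (M + 1) + 1) * (2 * A - 3 * (M + 1) + 1) * (2 * A - 3 * (M + 1)) /
      (w * x * z * y) + (-1) * c2 * (2 * A - 3 * M - 3) / (z * y) := by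
  rw [h1, h2]
  field_simp
  rw [ex, ey, ez, ew]
  ring

private lemma R2a_succ (A n s x y z w : ℚ) (hx : x ≠ 0) (hy : y ≠ 0) (hz : z ≠ 0) (hw : w ≠ 0)
    (ex : x = A - 2 * n - s - 1) (ey : y = 2 * A - 2 * n - 1 - 2 * s)
    (ez : z = A - 2 * n + 1) (ew : w = 2 * s + 4) :
    (2 * A - 3 * n - 3 * s - 1) +
      -(((n + s + 2) * (n - 1 - s)) / w * (2 * A - 3 * n - 3 * s - 4) *
        (2 * A - 3 * n + 1 - s) / (x * y)) =
      (A - 3 * n + 1) * (2 * A - 3 * n - 3 * s - 3) * ((2 * A - 3 * n + 1 - s) *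
        (2 * A - 3 * n - s)) / (2 * z * (x * y)) +
      -(((n - 1 - s) * (n - 2 - s)) / w * (2 * A - 3 * n - 3 * s - 3) *
        (2 * A - 3 * n + 2) / (z * y)) := by
  field_simp
  rw [ex, ey, ez, ew]
  ring

theorem R2a (a m r : ℕ) (ha : 2 * (m + 1) + r < a) :
    Uf0 ((a : ℚ) + 1) (m + 1) r + Uf0 ((a : ℚ) + 1) (m + 1) (r + 1) =
      hh false a (m + 1) * Uf0 (a : ℚ) (m + 1) r + Uf0 (a : ℚ) m (r + 1) := by
  have ha' : 2 * ((m : ℚ) + 1) + r < a := by exact_mod_cast ha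
  have hm : (0:ℚ) ≤ m := Nat.cast_nonneg m
  generalize hA : (a : ℚ) = A at ha' ⊢
  rcases r with _ | s
  · have hA1 : 2 * ((m : ℚ) + 1) < A := by push_cast at ha'; linarith
    have h := R2a_zero A m (A - 2 * (m + 1)) (2 * A - 2 * (m + 1) + 1) (A - 2 * (m + 1) + 1) 2
      ((m + 1 + 0 + 1).choose (2 * 0 + 2) : ℕ) ((m + 0 + 1).choose (2 * 0 + 2) : ℕ)
      (by rw [Nat.mul_zero, Nat.zero_add, Nat.cast_choose_two]; push_cast; ring)
      (by rw [Nat.mul_zero, Nat.zero_add, Nat.cast_choose_two]; push_cast; ring)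
      (by intro h; linarith) (by intro h; linarith) (by intro h; linarith) (by norm_num)
      rfl rfl rfl rfl
    simp only [Uf0, hh, cond_false, P_one, O_one, P_zero, df_succ, df_zero, zero_add, pow_one]
    push_cast at h ⊢
    simp only [zero_add, mul_zero, sub_zero, mul_one, add_zero] at h ⊢
    have e1 : (A + 1 - 2 * ((m : ℚ) + 1) - 1) = A - 2 * (m + 1) := by ring
    have e2 : (2 * (A + 1) - 2 * ((m : ℚ) + 1) - 1) = 2 * A - 2 * (m + 1) + 1 := by ring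
    have e3 : (A - 2 * (m : ℚ) - 1) = A - 2 * (m + 1) + 1 := by ring
    have e4 : (2 * A - 2 * (m : ℚ) - 1) = 2 * A - 2 * (m + 1) + 1 := by ring
    rw [e1, e2, e3, e4]
    exact h
  · have hs : (0 : ℚ) ≤ s := Nat.cast_nonneg s
    have hA1 : 2 * ((m : ℚ) + 1) + (s + 1) < A := by push_cast at ha'; linarith
    -- common products
    set n : ℚ := (m : ℚ) + 1 with hn
    have hx : A - 2 * n - s - 1 ≠ 0 := by intro h; linarith
    have hy : 2 * A - 2 * n - 1 - 2 * s ≠ 0 := by intro h; linarith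
    have hz : A - 2 * n + 1 ≠ 0 := by intro h; linarith
    have hw : 2 * (s : ℚ) + 4 ≠ 0 := by intro h; linarith
    have hw3 : 2 * (s : ℚ) + 3 ≠ 0 := by intro h; linarith
    have hb : A - 2 * n ≠ 0 := by intro h; linarith
    have hb2 : 2 * A - 2 * n + 1 ≠ 0 := by intro h; linarith
    have key := R2a_succ A n s (A - 2 * n - s - 1) (2 * A - 2 * n - 1 - 2 * s) (A - 2 * n + 1)
      (2 * s + 4) hx hy hz hw rfl rfl rfl rfl
    have hc1 := choose_two_one (m + s + 2) (2 * s + 2)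
    have hc2 := choose_two (m + s + 2) (2 * s + 2)
    obtain ⟨c, hc⟩ : ∃ c : ℚ, c = ((m + s + 2).choose (2 * s + 2) : ℕ) := ⟨_, rfl⟩
    obtain ⟨d, hd⟩ : ∃ d : ℚ, d = df (s + 1) := ⟨_, rfl⟩
    obtain ⟨p, hp⟩ : ∃ p : ℚ, p = P (2 * A - 3 * n + 1) s := ⟨_, rfl⟩
    obtain ⟨q, hq⟩ : ∃ q : ℚ, q = P (A - 2 * n) (s + 1) := ⟨_, rfl⟩
    obtain ⟨o, ho⟩ : ∃ o : ℚ, o = O (2 * A - 2 * n + 1) (s + 1) := ⟨_, rfl⟩
    obtain ⟨ε, hε⟩ : ∃ ε : ℚ, ε = (-1) ^ (s + 1) := ⟨_, rfl⟩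
    have hq0 : q ≠ 0 := by
      rw [hq]; apply P_ne_zero; push_cast; linarith
    have ho0 : o ≠ 0 := by
      rw [ho]; apply O_ne_zero; push_cast; linarith
    rw [← hc] at hc1 hc2
    push_cast at hc1 hc2
    have e1 : P (2 * A - 3 * n + 1) (s + 1) = p * (2 * A - 3 * n + 1 - s) := by rw [P_succ, hp]
    have e2 : (2 * A - 3 * n + 1) * (2 * A - 3 * n) * P (2 * A - 3 * n - 1) s =
        p * (2 * A - 3 * n + 1 - s) * (2 * A - 3 * n - s) := by
      have t1 : P (2 * A - 3 * n + 1) (s + 2) =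
          (2 * A - 3 * n + 1) * ((2 * A - 3 * n) * P (2 * A - 3 * n - 1) s) := by
        have u1 : 2 * A - 3 * n + 1 - 1 = 2 * A - 3 * n := by ring
        rw [P_succ', P_succ', u1]
      have t2 : P (2 * A - 3 * n + 1) (s + 2) =
          p * (2 * A - 3 * n + 1 - s) * (2 * A - 3 * n - s) := by
        rw [P_succ, e1]; push_cast; ring
      rw [mul_assoc, ← t1, t2]
    have e3 : P (2 * A - 3 * n + 2) (s + 1) = (2 * A - 3 * n + 2) * p := by
      rw [P_succ', hp]; congr 2; ring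
    have e4 : P (A - 2 * n) (s + 2) = q * (A - 2 * n - s - 1) := by
      rw [P_succ, hq]; push_cast; ring
    have e5 : P (A - 2 * n - 1) (s + 1) = q * (A - 2 * n - s - 1) / (A - 2 * n) := by
      rw [eq_div_iff hb, ← e4, P_succ' (A - 2 * n) (s + 1)]; ring
    have e6 : P (A - 2 * n + 1) (s + 2) = (A - 2 * n + 1) * q := by
      rw [P_succ', hq]; congr 2; ring
    have e7 : O (2 * A - 2 * n + 1) (s + 2) = o * (2 * A - 2 * n - 1 - 2 * s) := by
      rw [O_succ, ho]; push_cast; ring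
    have e8 : O (2 * A - 2 * n - 1) (s + 1) =
        o * (2 * A - 2 * n - 1 - 2 * s) / (2 * A - 2 * n + 1) := by
      rw [eq_div_iff hb2, ← e7, O_succ' (2 * A - 2 * n + 1) (s + 1)]
      rw [mul_comm]; congr 2; ring
    have e9 : df (s + 2) = d * (2 * s + 3) := by
      rw [df_succ, hd]; push_cast; ring
    have hcast : ((m + 1 : ℕ) : ℚ) = n := by rw [hn]; push_cast; ring
    have hmn : (m : ℚ) = n - 1 := by rw [hn]; ring
    have f1 : m + 1 + s + 1 = m + s + 2 := by ring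
    have f2 : m + 1 + (s + 1) + 1 = m + s + 2 + 1 := by ring
    have f3 : m + (s + 1) + 1 = m + s + 2 := by ring
    have f4 : 2 * (s + 1) + 2 = 2 * s + 2 + 2 := by ring
    have g1 : 2 * (A + 1) - 3 * n - 1 = 2 * A - 3 * n + 1 := by ring
    have g2 : A + 1 - 2 * n - 1 = A - 2 * n := by ring
    have g3 : 2 * (A + 1) - 2 * n - 1 = 2 * A - 2 * n + 1 := by ring
    have g4 : 2 * A - 3 * (n - 1) - 1 = 2 * A - 3 * n + 2 := by ring
    have g5 : A - 2 * (n - 1) - 1 = A - 2 * n + 1 := by ring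
    have g6 : 2 * A - 2 * (n - 1) - 1 = 2 * A - 2 * n + 1 := by ring
    have hcc1 : ((m + s + 2 + 1).choose (2 * s + 2 + 2) : ℚ) =
        c * ((n + s + 2) * (n - 1 - s)) / ((2 * s + 3) * (2 * s + 4)) := by
      rw [eq_div_iff (mul_ne_zero hw3 hw)]
      rw [hmn] at hc1
      linear_combination hc1
    have hcc2 : ((m + s + 2).choose (2 * s + 2 + 2) : ℚ) =
        c * ((n - 1 - s) * (n - 2 - s)) / ((2 * s + 3) * (2 * s + 4)) := by
      rw [eq_div_iff (mul_ne_zero hw3 hw)]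
      rw [hmn] at hc2
      linear_combination hc2
    have T1 : Uf0 (A + 1) (m + 1) (s + 1) = ε * d * c * p / (q * o) *
        (2 * A - 3 * n - 3 * s - 1) := by
      simp only [Uf0]
      rw [hcast, f1, g1, g2, g3, ← hc, ← hd, ← hp, ← hq, ← ho, ← hε]
      field_simp
      ring
    have T2 : Uf0 (A + 1) (m + 1) (s + 1 + 1) = ε * d * c * p / (q * o) *
        -(((n + s + 2) * (n - 1 - s)) / (2 * s + 4) * (2 * A - 3 * n - 3 * s - 4) *
        (2 * A - 3 * n + 1 - s) / ((A - 2 * n - s - 1) * (2 * A - 2 * n - 1 - 2 * s))) := by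
      simp only [Uf0]
      rw [hcast, f2, f4, g1, g2, g3, e1, e4, e7, e9, hcc1, pow_succ, ← hε]
      push_cast
      generalize A - 2 * n - (s : ℚ) - 1 = x at hx ⊢
      generalize 2 * A - 2 * n - 1 - 2 * (s : ℚ) = y at hy ⊢
      generalize 2 * (s : ℚ) + 3 = w3 at hw3 ⊢
      generalize 2 * (s : ℚ) + 4 = w at hw ⊢
      field_simp
      ring
    have T3 : hh false A (m + 1) * Uf0 A (m + 1) (s + 1) = ε * d * c * p / (q * o) *
        ((A - 3 * n + 1) * (2 * A - 3 * n - 3 * s - 3) * ((2 * A - 3 * n + 1 - s) *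
        (2 * A - 3 * n - s)) / (2 * (A - 2 * n + 1) * ((A - 2 * n - s - 1) *
        (2 * A - 2 * n - 1 - 2 * s)))) := by
      simp only [Uf0, hh, cond_false]
      rw [hcast, f1, e5, e8, ← hc, ← hd, ← hε]
      generalize A - 2 * n - (s : ℚ) - 1 = x at hx ⊢
      generalize 2 * A - 2 * n - 1 - 2 * (s : ℚ) = y at hy ⊢
      generalize hbe : A - 2 * n = b at hb hz ⊢
      generalize hbe2 : 2 * A - 2 * n + 1 = b2 at hb2 ⊢
      generalize hbz : b + 1 = z at hz ⊢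
      generalize P (2 * A - 3 * n - 1) s = pp at e2 ⊢
      field_simp
      linear_combination (c * d * ε * (A - 3 * n + 1) * (2 * A - 3 * n - 3 * s - 3)) * e2
    have T4 : Uf0 A m (s + 1 + 1) = ε * d * c * p / (q * o) *
        -(((n - 1 - s) * (n - 2 - s)) / (2 * s + 4) * (2 * A - 3 * n - 3 * s - 3) *
        (2 * A - 3 * n + 2) / ((A - 2 * n + 1) * (2 * A - 2 * n - 1 - 2 * s))) := by
      simp only [Uf0]
      rw [hmn, f3, f4, g4, g5, g6, e3, e6, e7, e9, hcc2, pow_succ, ← hε]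
      push_cast
      generalize A - 2 * n + 1 = z at hz ⊢
      generalize 2 * A - 2 * n - 1 - 2 * (s : ℚ) = y at hy ⊢
      generalize 2 * (s : ℚ) + 3 = w3 at hw3 ⊢
      generalize 2 * (s : ℚ) + 4 = w at hw ⊢
      field_simp
      ring
    rw [T1, T2, T3, T4, ← mul_add, ← mul_add, key]

end Pool.Agent.GV
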