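import Pool.Agent.GV.CM.Ratio

/-!
# GV-CM-R2b: contiguous relation for `U`, `e = 1`

`U_{a+1}(n, n+r) + U_{a+1}(n, n+r+1) = h U_a(n, n+r) + U_a(n-1, n+r)`, `h = D_a(n)/D_{a+1}(n)`;
written with `n = m + 1`.  (Checked numerically.)

Plan.  `A = (a : ℚ)`, `n = m + 1`.  `Uf1` has a uniform formula in `r`.
* numerators: `p = P (2A-3n+2) r`; `Uf1 (A+1) n r` has `p`, `Uf1 (A+1) n (r+1)` has
  `p (2A-3n+2-r)`, `Uf1 A n r` has `P (2A-3n) r` and `hh` contains `(2A-3n+1)(2A-3n+2)`,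
  `(2A-3n+2)(2A-3n+1) P (2A-3n) r = P (2A-3n+2) (r+2) = p (2A-3n+2-r)(2A-3n+1-r)`,
  `Uf1 A (n-1) (r+1)` has `P (2A-3n+3) (r+1) = (2A-3n+3) p`;
* binomials: `c = C(n+r, 2r)`: `choose_two`, `choose_two_one` of file Basic
  (with `N = n+r = m+1+r`, `K = 2r`);
* denominators: `P (A-2n) r`, `P (A-2n) (r+1)`, `P (A-2n-1) r`, `P (A-2n+1) (r+1)`:
  `(A-2n) P (A-2n-1) r = P (A-2n) (r+1) = P (A-2n) r (A-2n-r)`,
  `P (A-2n+1) (r+1) = (A-2n+1) P (A-2n) r`;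
  `O (2A-2n+1) r`, `O (2A-2n+1) (r+1)`, `O (2A-2n-1) r`:
  `O (2A-2n+1) (r+1) = (2A-2n+1) O (2A-2n-1) r = O (2A-2n+1) r (2A-2n+1-2r)`;
* `df_succ`.
All denominators are non-zero because `2 n + r < a` (`P_ne_zero`, `O_ne_zero`).
Then `field_simp; ring` (generalise the common products to variables first).
-/

namespace Pool.Agent.GV

theorem R2b (a m r : ℕ) (ha : 2 * (m + 1) + r < a) :
    Uf1 ((a : ℚ) + 1) (m + 1) r + Uf1 ((a : ℚ) + 1) (m + 1) (r + 1) =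
      hh true a (m + 1) * Uf1 (a : ℚ) (m + 1) r + Uf1 (a : ℚ) m (r + 1) := by
  have hA : 2 * ((m : ℚ) + 1) + r < a := by exact_mod_cast ha
  have hm : (0 : ℚ) ≤ m := by positivity
  have hr : (0 : ℚ) ≤ r := by positivity
  obtain ⟨A, hAd⟩ : ∃ A : ℚ, A = a := ⟨_, rfl⟩
  obtain ⟨X, hX⟩ : ∃ X : ℚ, X = 2 * A - 3 * ((m : ℚ) + 1) + 2 := ⟨_, rfl⟩
  obtain ⟨Y, hY⟩ : ∃ Y : ℚ, Y = A - 2 * ((m : ℚ) + 1) := ⟨_, rfl⟩
  obtain ⟨Z, hZ⟩ : ∃ Z : ℚ, Z = 2 * A - 2 * ((m : ℚ) + 1) + 1 := ⟨_, rfl⟩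
  rw [← hAd] at hA ⊢
  have e1 : Uf1 (A + 1) (m + 1) r =
      (-1) ^ r * df r * ((m + 1 + r).choose (2 * r) : ℚ) * P X r / (P Y r * O Z r) := by
    unfold Uf1
    rw [show 2 * (A + 1) - 3 * ((m + 1 : ℕ) : ℚ) = X by rw [hX]; push_cast; ring,
      show A + 1 - 2 * ((m + 1 : ℕ) : ℚ) - 1 = Y by rw [hY]; push_cast; ring,
      show 2 * (A + 1) - 2 * ((m + 1 : ℕ) : ℚ) - 1 = Z by rw [hZ]; push_cast; ring]
  have e2 : Uf1 (A + 1) (m + 1) (r + 1) =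
      (-1) ^ (r + 1) * df (r + 1) * ((m + 1 + r + 1).choose (2 * r + 2) : ℚ) * P X (r + 1) /
        (P Y (r + 1) * O Z (r + 1)) := by
    unfold Uf1
    rw [show 2 * (A + 1) - 3 * ((m + 1 : ℕ) : ℚ) = X by rw [hX]; push_cast; ring,
      show A + 1 - 2 * ((m + 1 : ℕ) : ℚ) - 1 = Y by rw [hY]; push_cast; ring,
      show 2 * (A + 1) - 2 * ((m + 1 : ℕ) : ℚ) - 1 = Z by rw [hZ]; push_cast; ring]
    rfl
  have e3 : Uf1 A (m + 1) r =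
      (-1) ^ r * df r * ((m + 1 + r).choose (2 * r) : ℚ) * P (X - 1 - 1) r /
        (P (Y - 1) r * O (Z - 2) r) := by
    unfold Uf1
    rw [show 2 * A - 3 * ((m + 1 : ℕ) : ℚ) = X - 1 - 1 by rw [hX]; push_cast; ring,
      show A - 2 * ((m + 1 : ℕ) : ℚ) - 1 = Y - 1 by rw [hY]; push_cast; ring,
      show 2 * A - 2 * ((m + 1 : ℕ) : ℚ) - 1 = Z - 2 by rw [hZ]; push_cast; ring]
  have e4 : Uf1 A m (r + 1) =
      (-1) ^ (r + 1) * df (r + 1) * ((m + 1 + r).choose (2 * r + 2) : ℚ) * P (X + 1) (r + 1) /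
        (P (Y + 1) (r + 1) * O Z (r + 1)) := by
    unfold Uf1
    rw [show 2 * A - 3 * (m : ℚ) = X + 1 by rw [hX]; ring,
      show A - 2 * (m : ℚ) - 1 = Y + 1 by rw [hY]; ring,
      show 2 * A - 2 * (m : ℚ) - 1 = Z by rw [hZ]; ring,
      show m + (r + 1) = m + 1 + r by ring]
    rfl
  have e5 : hh true A (m + 1) = (Y - ((m : ℚ) + 1)) * (X - 1) * X / (2 * Y * (Y + 1) * Z) := by
    unfold hh
    rw [hX, hY, hZ]
    push_cast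
    simp only [cond_true]
    congr 1 <;> ring
  rw [e1, e2, e3, e4, e5]
  -- products
  have hX1 : X * ((X - 1) * P (X - 1 - 1) r) = P X r * (X - r) * (X - 1 - r) := by
    rw [← P_succ', ← P_succ', P_succ, P_succ]
    push_cast
    ring
  have hY1 : Y * P (Y - 1) r = P Y r * (Y - r) := by
    rw [← P_succ', P_succ]
  have hZ1 : Z * O (Z - 2) r = O Z r * (Z - 2 * r) := by
    rw [← O_succ', O_succ]
  have hX2 : P (X + 1) (r + 1) = (X + 1) * P X r := by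
    rw [P_succ', add_sub_cancel_right]
  have hY2 : P (Y + 1) (r + 1) = (Y + 1) * P Y r := by
    rw [P_succ', add_sub_cancel_right]
  have hc1 := choose_two (m + 1 + r) (2 * r)
  have hc2 := choose_two_one (m + 1 + r) (2 * r)
  rw [hX2, hY2, P_succ X, P_succ Y, O_succ Z, df_succ]
  have hYr : Y - r ≠ 0 := by
    have : 0 < Y - r := by rw [hY]; linarith
    exact this.ne'
  have hY0 : Y ≠ 0 := by
    have : 0 < Y := by rw [hY]; linarith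
    exact this.ne'
  have hYp : Y + 1 ≠ 0 := by
    have : 0 < Y + 1 := by rw [hY]; linarith
    exact this.ne'
  have hZ0 : Z ≠ 0 := by
    have : 0 < Z := by rw [hZ]; linarith
    exact this.ne'
  have hZr : Z - 2 * r ≠ 0 := by
    have : 0 < Z - 2 * r := by rw [hZ]; linarith
    exact this.ne'
  have hq : P Y r ≠ 0 := P_ne_zero (by rw [hY]; linarith)
  have ho : O Z r ≠ 0 := O_ne_zero (by rw [hZ]; linarith)
  have hq1 : P (Y - 1) r ≠ 0 := by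
    intro h
    rw [h, mul_zero] at hY1
    exact mul_ne_zero hq hYr hY1.symm
  have ho1 : O (Z - 2) r ≠ 0 := by
    intro h
    rw [h, mul_zero] at hZ1
    exact mul_ne_zero ho hZr hZ1.symm
  have hq2 : P (Y - 1) r = P Y r * (Y - r) / Y := by
    rw [← hY1]
    field_simp
  have ho2 : O (Z - 2) r = O Z r * (Z - 2 * r) / Z := by
    rw [← hZ1]
    field_simp
  have hr1 : (2 * (r : ℚ) + 1) ≠ 0 := by positivity
  have hr2 : ((r : ℚ) + 1) ≠ 0 := by positivity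
  have hc1' : ((m + 1 + r).choose (2 * r + 2) : ℚ) = ((m + 1 + r).choose (2 * r) : ℚ) *
      (((m : ℚ) + 1 - r) * ((m : ℚ) - r)) / ((2 * r + 1) * (2 * (r + 1))) := by
    rw [eq_div_iff (by positivity)]
    push_cast at hc1
    linear_combination hc1
  have hc2' : ((m + 1 + r + 1).choose (2 * r + 2) : ℚ) = ((m + 1 + r).choose (2 * r) : ℚ) *
      (((m : ℚ) + 1 + r + 1) * ((m : ℚ) + 1 - r)) / ((2 * r + 1) * (2 * (r + 1))) := by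
    rw [eq_div_iff (by positivity)]
    push_cast at hc2
    linear_combination hc2
  rw [hc1', hc2', hq2, ho2]
  have hT3 : (Y - ((m : ℚ) + 1)) * (X - 1) * X / (2 * Y * (Y + 1) * Z) *
      ((-1) ^ r * df r * ((m + 1 + r).choose (2 * r) : ℚ) * P (X - 1 - 1) r /
        (P Y r * (Y - r) / Y * (O Z r * (Z - 2 * r) / Z))) =
      (Y - ((m : ℚ) + 1)) * ((-1) ^ r * df r * ((m + 1 + r).choose (2 * r) : ℚ)) *
        (P X r * (X - r) * (X - 1 - r)) /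
        (2 * (Y + 1) * (P Y r * (Y - r)) * (O Z r * (Z - 2 * r))) := by
    rw [← hX1]
    field_simp
  rw [hT3, pow_succ]
  obtain ⟨c, hc⟩ : ∃ c : ℚ, c = ((m + 1 + r).choose (2 * r) : ℚ) := ⟨_, rfl⟩
  obtain ⟨d, hd⟩ : ∃ d : ℚ, d = df r := ⟨_, rfl⟩
  obtain ⟨pp, hpp⟩ : ∃ pp : ℚ, pp = P X r := ⟨_, rfl⟩
  obtain ⟨s, hs⟩ : ∃ s : ℚ, s = (-1) ^ r := ⟨_, rfl⟩
  rw [← hc, ← hd, ← hpp, ← hs]
  obtain ⟨q, hqd⟩ : ∃ q : ℚ, q = P Y r := ⟨_, rfl⟩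
  obtain ⟨o, hod⟩ : ∃ o : ℚ, o = O Z r := ⟨_, rfl⟩
  rw [← hqd] at hq ⊢
  rw [← hod] at ho ⊢
  clear hX1 hY1 hZ1 hX2 hY2 hc1 hc2 hq1 ho1 hq2 ho2 hc1' hc2' hT3 e1 e2 e3 e4 e5 hqd hod hc hd hpp hs
  have hXY : X = 2 * Y + ((m : ℚ) + 1) + 2 := by rw [hX, hY]; ring
  have hZY : Z = 2 * Y + 2 * ((m : ℚ) + 1) + 1 := by rw [hZ, hY]; ring
  clear hX hY hZ
  obtain ⟨W, hW⟩ : ∃ W : ℚ, W = Z - 2 * r := ⟨_, rfl⟩
  obtain ⟨V, hV⟩ : ∃ V : ℚ, V = Y - r := ⟨_, rfl⟩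
  obtain ⟨Y1, hY1⟩ : ∃ Y1 : ℚ, Y1 = Y + 1 := ⟨_, rfl⟩
  rw [← hW] at hZr ⊢
  rw [← hV] at hYr ⊢
  rw [← hY1] at hYp ⊢
  field_simp
  rw [hY1, hV, hW, hZY, hXY]
  ring

end Pool.Agent.GV
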