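import Pool.Agent.GV.CM.Ratio
import Pool.Agent.GV.CM.R2a
import Pool.Agent.GV.CM.R2b
import Pool.Agent.GV.CM.R3a
import Pool.Agent.GV.CM.R3b

/-!
# GV-CM-UtU: `U⁻¹ U = 1`

Let `C_a(i, j) = ∑_{n=i}^{j} U⁻¹_a(i, n) U_a(n, j)` (`1 ≤ i ≤ j`, `2 j ≤ a`).  Claim
`C_a(i, j) = δ_ij`.

Plan.  (1) For `1 ≤ i`, `1 ≤ j`, `2 j < a` (with the conventions `U(n,j) = 0` for `n > j`,
`C_a(0, j) = 0`):   `C_{a+1}(i,j) + C_{a+1}(i,j+1) = C_a(i,j) + C_a(i-1,j)`.
Indeed `C_{a+1}(i,j) + C_{a+1}(i,j+1) = ∑_{n≥1} U⁻¹_{a+1}(i,n) [U_{a+1}(n,j) + U_{a+1}(n,j+1)]`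
`= ∑_{n≥1} U⁻¹_{a+1}(i,n) [h_n U_a(n,j) + U_a(n-1,j)]`    (R2; for `n = j+1` it is `0+1 = 0+1`,
for `n = 1` the last term is `Uf e a 0 _ = 0` since the binomial `C(r, 2r)`, `r ≥ 1`, is `0`)
`= ∑_{n≥1} [h_n U⁻¹_{a+1}(i,n) + U⁻¹_{a+1}(i,n+1)] U_a(n,j)` (shift the second part)
`= ∑_{n≥1} [U⁻¹_a(i,n) + U⁻¹_a(i-1,n)] U_a(n,j)`          (R3, needs `2n < a` for `n ≤ j`; when
`n = i - 1` it reads `0 + 1 = 0 + 1`; `U⁻¹_a(0, n) = Utf e a 0 n = 0` for `n ≥ 1`).
(2) Induction on the offset `d = j - i ≥ 1` (for all `a`, `i`): offset `0` gives `1`; by (1) with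
`(i, j-1)`... precisely with `j = i + d - 1`: `C_{a+1}(i, i+d-1) + C_{a+1}(i, i+d) =
 C_a(i, i+d-1) + C_a(i-1, i+d-1)`; the first terms on both sides are equal (`0`, or `1` when
`d = 1`), so `C_{a+1}(i, i+d) = C_a(i-1, i-1+d)`, and an inner induction on `i` down to
`C_a(0, d) = 0` finishes.  Note `2 (i+d) ≤ a + 1` gives `2 (i+d-1) ≤ a - 1 < a`.
A convenient way in Lean: define `C e a i j := ∑ n ∈ Finset.Icc 1 j, uppM (Utf e a) i n *
 uppM (Uf e a) n j` for all `i ≥ 0`.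
-/

namespace Pool.Agent.GV

private lemma utu_R2 (e : Bool) (a m r : ℕ) (ha : 2 * (m + 1) + r < a) :
    Uf e ((a : ℚ) + 1) (m + 1) r + Uf e ((a : ℚ) + 1) (m + 1) (r + 1) =
      hh e a (m + 1) * Uf e (a : ℚ) (m + 1) r + Uf e (a : ℚ) m (r + 1) := by
  cases e
  · exact R2a a m r ha
  · exact R2b a m r ha

private lemma utu_R3 (e : Bool) (a m r : ℕ) (ha : 2 * (m + 1 + r) < a) :
    Utf e (a : ℚ) (m + 1) r + Utf e (a : ℚ) m (r + 1) =
      hh e a (m + 1 + r) * Utf e ((a : ℚ) + 1) (m + 1) r +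
        Utf e ((a : ℚ) + 1) (m + 1) (r + 1) := by
  cases e
  · exact R3a a m r ha
  · exact R3b a m r ha

private lemma utu_U0 (e : Bool) (A : ℚ) (r : ℕ) : Uf e A 0 (r + 1) = 0 := by
  cases e
  · show Uf0 A 0 (r + 1) = 0
    have h : (0 + r + 1).choose (2 * r + 2) = 0 := Nat.choose_eq_zero_of_lt (by omega)
    simp only [Uf0]
    rw [h]
    simp
  · show Uf1 A 0 (r + 1) = 0
    have h : (0 + (r + 1)).choose (2 * (r + 1)) = 0 := Nat.choose_eq_zero_of_lt (by omega)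
    simp only [Uf1]
    rw [h]
    simp

private lemma utu_V0 (e : Bool) (A : ℚ) (r : ℕ) : Utf e A 0 (r + 1) = 0 := by
  cases e
  · show Utf0 A 0 (r + 1) = 0
    have h : (0 + 2 * (r + 1) - 1).choose (2 * (r + 1)) = 0 := Nat.choose_eq_zero_of_lt (by omega)
    simp only [Utf0]
    rw [h]
    simp
  · show Utf1 A 0 (r + 1) = 0
    have h : (0 + 2 * r + 1).choose (2 * r + 2) = 0 := Nat.choose_eq_zero_of_lt (by omega)
    simp only [Utf1]
    rw [h]
    simp

/-- R2 in matrix form -/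
private lemma utu_R2m (e : Bool) (a n j : ℕ) (hj : 1 ≤ j) (ha : 2 * j < a) :
    uppM (Uf e ((a : ℚ) + 1)) (n + 1) j + uppM (Uf e ((a : ℚ) + 1)) (n + 1) (j + 1) =
      hh e a (n + 1) * uppM (Uf e (a : ℚ)) (n + 1) j + uppM (Uf e (a : ℚ)) n j := by
  unfold uppM
  rcases lt_trichotomy j n with h | h | h
  · rw [if_pos (show j < n + 1 by omega), if_pos (show j + 1 < n + 1 by omega),
      if_pos (show j < n + 1 by omega), if_pos h]
    ring
  · subst h
    rw [if_pos (show j < j + 1 by omega), if_neg (show ¬ j + 1 < j + 1 by omega),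
      if_pos (show j < j + 1 by omega), if_neg (show ¬ j < j by omega), Nat.sub_self,
      Nat.sub_self, Uf_zero, Uf_zero]
    ring
  · obtain ⟨r, rfl⟩ : ∃ r, j = n + 1 + r := ⟨j - (n + 1), by omega⟩
    rw [if_neg (show ¬ n + 1 + r < n + 1 by omega), if_neg (show ¬ n + 1 + r + 1 < n + 1 by omega),
      if_neg (show ¬ n + 1 + r < n by omega),
      if_neg (show ¬ n + 1 + r < n + 1 by omega)]
    have e1 : n + 1 + r - (n + 1) = r := by omega
    have e2 : n + 1 + r + 1 - (n + 1) = r + 1 := by omega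
    have e3 : n + 1 + r - n = r + 1 := by omega
    rw [e1, e2, e3]
    exact utu_R2 e a n r (by omega)

/-- R3 in matrix form -/
private lemma utu_R3m (e : Bool) (a i n : ℕ) (hn : 1 ≤ n) (ha : 2 * n < a) :
    uppM (Utf e (a : ℚ)) (i + 1) n + uppM (Utf e (a : ℚ)) i n =
      hh e a n * uppM (Utf e ((a : ℚ) + 1)) (i + 1) n +
        uppM (Utf e ((a : ℚ) + 1)) (i + 1) (n + 1) := by
  unfold uppM
  rcases lt_trichotomy n i with h | h | h
  · rw [if_pos (show n < i + 1 by omega), if_pos (show n + 1 < i + 1 by omega), if_pos h,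
      if_pos (show n < i + 1 by omega)]
    ring
  · subst h
    rw [if_pos (show n < n + 1 by omega), if_neg (show ¬ n + 1 < n + 1 by omega),
      if_neg (show ¬ n < n by omega), if_pos (show n < n + 1 by omega), Nat.sub_self,
      Nat.sub_self, Utf_zero, Utf_zero]
    ring
  · obtain ⟨r, rfl⟩ : ∃ r, n = i + 1 + r := ⟨n - (i + 1), by omega⟩
    rw [if_neg (show ¬ i + 1 + r < i + 1 by omega), if_neg (show ¬ i + 1 + r < i by omega),
      if_neg (show ¬ i + 1 + r < i + 1 by omega), if_neg (show ¬ i + 1 + r + 1 < i + 1 by omega)]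
    have e1 : i + 1 + r - (i + 1) = r := by omega
    have e2 : i + 1 + r + 1 - (i + 1) = r + 1 := by omega
    have e3 : i + 1 + r - i = r + 1 := by omega
    rw [e1, e2, e3]
    exact utu_R3 e a i r ha

/-- the entries of the product -/
private def utuC (e : Bool) (A : ℚ) (i j : ℕ) : ℚ :=
  ∑ n ∈ Finset.range j, uppM (Utf e A) i (n + 1) * uppM (Uf e A) (n + 1) j

private lemma utuC_ext (e : Bool) (A : ℚ) (i j J : ℕ) (hJ : j ≤ J) :
    ∑ n ∈ Finset.range J, uppM (Utf e A) i (n + 1) * uppM (Uf e A) (n + 1) j = utuC e A i j := by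
  unfold utuC
  symm
  apply Finset.sum_subset (Finset.range_subset_range.2 hJ)
  intro n _ hn
  have : j < n + 1 := by
    rw [Finset.mem_range] at hn
    omega
  unfold uppM
  rw [if_pos this, mul_zero]

private lemma utuC_rec (e : Bool) (a i j : ℕ) (hj : 1 ≤ j) (ha : 2 * j < a) :
    utuC e ((a : ℚ) + 1) (i + 1) j + utuC e ((a : ℚ) + 1) (i + 1) (j + 1) =
      utuC e (a : ℚ) (i + 1) j + utuC e (a : ℚ) i j := by
  rw [← utuC_ext e ((a : ℚ) + 1) (i + 1) j (j + 1) (by omega),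
    ← utuC_ext e ((a : ℚ) + 1) (i + 1) (j + 1) (j + 1) le_rfl, ← Finset.sum_add_distrib]
  have h1 : ∀ n ∈ Finset.range (j + 1),
      uppM (Utf e ((a : ℚ) + 1)) (i + 1) (n + 1) * uppM (Uf e ((a : ℚ) + 1)) (n + 1) j +
      uppM (Utf e ((a : ℚ) + 1)) (i + 1) (n + 1) * uppM (Uf e ((a : ℚ) + 1)) (n + 1) (j + 1) =
      hh e a (n + 1) * uppM (Utf e ((a : ℚ) + 1)) (i + 1) (n + 1) * uppM (Uf e (a : ℚ)) (n + 1) j +
      uppM (Utf e ((a : ℚ) + 1)) (i + 1) (n + 1) * uppM (Uf e (a : ℚ)) n j := by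
    intro n _
    rw [← mul_add, utu_R2m e a n j hj ha]
    ring
  rw [Finset.sum_congr rfl h1, Finset.sum_add_distrib, Finset.sum_range_succ]
  have h2 : uppM (Uf e (a : ℚ)) (j + 1) j = 0 := by
    unfold uppM
    rw [if_pos (by omega)]
  rw [h2, mul_zero, add_zero, Finset.sum_range_succ']
  have h3 : uppM (Uf e (a : ℚ)) 0 j = 0 := by
    unfold uppM
    rw [if_neg (by omega)]
    obtain ⟨r, rfl⟩ : ∃ r, j = r + 1 := ⟨j - 1, by omega⟩
    exact utu_U0 e a r
  rw [h3, mul_zero, add_zero, ← Finset.sum_add_distrib]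
  unfold utuC
  rw [← Finset.sum_add_distrib]
  apply Finset.sum_congr rfl
  intro n hn
  rw [Finset.mem_range] at hn
  have h4 := utu_R3m e a i (n + 1) (by omega) (by omega)
  linear_combination (-(uppM (Uf e (a : ℚ)) (n + 1) j)) * h4

private lemma utuC_self (e : Bool) (A : ℚ) (i : ℕ) (hi : 1 ≤ i) : utuC e A i i = 1 := by
  unfold utuC
  obtain ⟨k, rfl⟩ : ∃ k, i = k + 1 := ⟨i - 1, by omega⟩
  rw [Finset.sum_eq_single k]
  · unfold uppM
    rw [if_neg (by omega), if_neg (by omega), Nat.sub_self, Uf_zero, Utf_zero, mul_one]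
  · intro n hn hnk
    rw [Finset.mem_range] at hn
    unfold uppM
    rw [if_pos (show n + 1 < k + 1 by omega), zero_mul]
  · intro h
    exact absurd (Finset.mem_range.2 (by omega)) h

private lemma utuC_zero (e : Bool) (A : ℚ) (j : ℕ) : utuC e A 0 j = 0 := by
  unfold utuC
  apply Finset.sum_eq_zero
  intro n _
  have : uppM (Utf e A) 0 (n + 1) = 0 := by
    unfold uppM
    rw [if_neg (by omega)]
    exact utu_V0 e A n
  rw [this, zero_mul]

private lemma utuC_off (e : Bool) (d : ℕ) (hd : 1 ≤ d) : ∀ i a : ℕ, 2 * (i + d) ≤ a →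
    utuC e (a : ℚ) i (i + d) = 0 := by
  induction d with
  | zero => omega
  | succ d ih =>
    intro i
    induction i with
    | zero => exact fun a _ => utuC_zero e a _
    | succ i ihi =>
      intro a ha
      obtain ⟨b, rfl⟩ : ∃ b, a = b + 1 := ⟨a - 1, by omega⟩
      have h1 := utuC_rec e b i (i + (d + 1)) (by omega) (by omega)
      have h2 := ihi b (by omega)
      have h3 : utuC e ((b : ℚ) + 1) (i + 1) (i + (d + 1)) =
          utuC e (b : ℚ) (i + 1) (i + (d + 1)) := by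
        rcases Nat.eq_zero_or_pos d with h0 | h0
        · subst h0
          rw [utuC_self e _ _ (by omega), utuC_self e _ _ (by omega)]
        · have e1 : i + (d + 1) = i + 1 + d := by omega
          have h4 := ih h0 (i + 1) (b + 1) (by omega)
          have h5 := ih h0 (i + 1) b (by omega)
          rw [e1, h5]
          push_cast at h4
          exact h4
      have e2 : i + 1 + (d + 1) = i + (d + 1) + 1 := by omega
      rw [e2]
      push_cast
      rw [h3, h2, add_zero] at h1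
      linarith

private lemma sum_Icc_one (f : ℕ → ℚ) (N : ℕ) :
    ∑ n ∈ Finset.Icc 1 N, f n = ∑ n ∈ Finset.range N, f (n + 1) := by
  induction N with
  | zero => simp
  | succ N ih => rw [Finset.sum_Icc_succ_top (by omega), ih, Finset.sum_range_succ]

theorem UtU (e : Bool) (a N : ℕ) (ha : 2 * N ≤ a) (i j : ℕ) (hi : 1 ≤ i) (hiN : i ≤ N)
    (hj : 1 ≤ j) (hjN : j ≤ N) :
    ∑ n ∈ Finset.Icc 1 N, uppM (Utf e (a : ℚ)) i n * uppM (Uf e (a : ℚ)) n j =
      if i = j then 1 else 0 := by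
  rw [sum_Icc_one, utuC_ext e a i j N hjN]
  rcases lt_trichotomy i j with h | h | h
  · rw [if_neg h.ne]
    obtain ⟨d, rfl⟩ : ∃ d, j = i + d := ⟨j - i, by omega⟩
    exact utuC_off e d (by omega) i a (by omega)
  · subst h
    rw [if_pos rfl]
    exact utuC_self e a i hi
  · rw [if_neg h.ne']
    unfold utuC
    apply Finset.sum_eq_zero
    intro n hn
    rw [Finset.mem_range] at hn
    unfold uppM
    rw [if_pos (show n + 1 < i by omega), zero_mul]

end Pool.Agent.GV
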