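import Pool.Agent.GV.CM.I1
import Pool.Agent.GV.CM.UtU
import Pool.Agent.GV.CM.Gosper0
import Pool.Agent.GV.CM.Gosper1

/-!
# GV-CM-LDU: the factorisation in matrix form

Plan.  `N × N` matrices indexed by `Fin N`, index `i` stands for `i + 1`.
* `LtL_mat`: entry `(i, j)`, from `gosper0`, `gosper1` (for `i > j`), trivially for `i ≤ j`
  (sum over `n ∈ [j, i]`; change the summation index).
* `UtU_mat`: from `UtU`.
* `BUt_mat`: `B * Ut = L * diag D` from `BUt` (the sum over `j ≤ n`, `uppM` vanishes for `j > n`);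
  conditions `n + l < a`, `2n ≤ a` hold as `3N < a`.
* `LDU`: `B = B Ut U = L D U` (`UtU_mat` gives `U Ut = 1` by `Matrix.mul_eq_one_comm`).
-/

namespace Pool.Agent.GV

open Matrix

/-- `B` as a matrix -/
def Bm (e : Bool) (a N : ℕ) : Matrix (Fin N) (Fin N) ℚ := of fun i j => B e (a : ℚ) (i + 1) (j + 1)
/-- `L` as a matrix -/
def Lm (e : Bool) (a N : ℕ) : Matrix (Fin N) (Fin N) ℚ :=
  of fun i j => lowM (Lf e (a : ℚ)) (i + 1) (j + 1)
/-- `L⁻¹` as a matrix -/
def Ltm (e : Bool) (a N : ℕ) : Matrix (Fin N) (Fin N) ℚ :=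
  of fun i j => lowM (Ltf e (a : ℚ)) (i + 1) (j + 1)
/-- `U` as a matrix -/
def Um (e : Bool) (a N : ℕ) : Matrix (Fin N) (Fin N) ℚ :=
  of fun i j => uppM (Uf e (a : ℚ)) (i + 1) (j + 1)
/-- `U⁻¹` as a matrix -/
def Utm (e : Bool) (a N : ℕ) : Matrix (Fin N) (Fin N) ℚ :=
  of fun i j => uppM (Utf e (a : ℚ)) (i + 1) (j + 1)
/-- `D` as a diagonal matrix -/
def Dm (e : Bool) (a N : ℕ) : Matrix (Fin N) (Fin N) ℚ :=
  diagonal fun i => Dd e (a : ℚ) (i + 1)

private theorem ldu_shift (f : ℕ → ℚ) (N : ℕ) :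
    ∑ k ∈ Finset.range N, f (k + 1) = ∑ n ∈ Finset.Icc 1 N, f n := by
  rw [Finset.range_eq_Ico, Finset.sum_Ico_add' f 0 N 1]
  rfl

private theorem ldu_gosper (e : Bool) (a n d : ℕ) (hn : 1 ≤ n) (hd : 1 ≤ d)
    (ha : 3 * (n + d) < a) :
    ∑ t ∈ Finset.range (d + 1), Ltf e (a : ℚ) (n + t) (d - t) * Lf e (a : ℚ) n t = 0 := by
  cases e
  · exact gosper0 a n d hn hd ha
  · exact gosper1 a n d hn hd ha

theorem LtL_mat (e : Bool) (a N : ℕ) (ha : 3 * N < a) : Ltm e a N * Lm e a N = 1 := by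
  ext i j
  rw [Matrix.mul_apply, Matrix.one_apply]
  simp only [Ltm, Lm, of_apply]
  rw [Fin.sum_univ_eq_sum_range (fun k => lowM (Ltf e (a : ℚ)) (i + 1) (k + 1) *
    lowM (Lf e (a : ℚ)) (k + 1) (j + 1)) N]
  have hi := i.2
  have hj := j.2
  rcases lt_trichotomy (i : ℕ) (j : ℕ) with hij | hij | hij
  · rw [if_neg (fun h => by rw [h] at hij; exact lt_irrefl _ hij)]
    refine Finset.sum_eq_zero fun k _ => ?_
    rcases Nat.lt_or_ge (i : ℕ) k with h | h
    · have : lowM (Ltf e (a : ℚ)) (i + 1) (k + 1) = 0 := if_pos (by omega)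
      rw [this, zero_mul]
    · have : lowM (Lf e (a : ℚ)) (k + 1) (j + 1) = 0 := if_pos (by omega)
      rw [this, mul_zero]
  · rw [if_pos (Fin.ext hij), Finset.sum_eq_single (i : ℕ)]
    · unfold lowM
      rw [if_neg (lt_irrefl _), if_neg (by omega), hij, Nat.sub_self]
      simp
    · intro k _ hk
      rcases Nat.lt_or_ge (i : ℕ) k with h | h
      · have : lowM (Ltf e (a : ℚ)) (i + 1) (k + 1) = 0 := if_pos (by omega)
        rw [this, zero_mul]
      · have : lowM (Lf e (a : ℚ)) (k + 1) (j + 1) = 0 := if_pos (by omega)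
        rw [this, mul_zero]
    · intro h
      exact absurd (Finset.mem_range.2 hi) h
  · rw [if_neg (fun h => by rw [h] at hij; exact lt_irrefl _ hij)]
    have h1 : ∑ k ∈ Finset.range N, lowM (Ltf e (a : ℚ)) (i + 1) (k + 1) *
        lowM (Lf e (a : ℚ)) (k + 1) (j + 1) =
        ∑ k ∈ Finset.Ico (j : ℕ) (i + 1), lowM (Ltf e (a : ℚ)) (i + 1) (k + 1) *
        lowM (Lf e (a : ℚ)) (k + 1) (j + 1) := by
      symm
      refine Finset.sum_subset ?_ ?_
      · intro k hk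
        rw [Finset.mem_Ico] at hk
        rw [Finset.mem_range]
        omega
      · intro k _ hk
        rw [Finset.mem_Ico] at hk
        rcases Nat.lt_or_ge (i : ℕ) k with h | h
        · have : lowM (Ltf e (a : ℚ)) (i + 1) (k + 1) = 0 := if_pos (by omega)
          rw [this, zero_mul]
        · have : lowM (Lf e (a : ℚ)) (k + 1) (j + 1) = 0 := if_pos (by omega)
          rw [this, mul_zero]
    rw [h1, Finset.sum_Ico_eq_sum_range]
    have h2 := ldu_gosper e a (j + 1) (i - j) (by omega) (by omega) (by omega)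
    have h3 : (i : ℕ) + 1 - j = i - j + 1 := by omega
    rw [h3, ← h2]
    refine Finset.sum_congr rfl fun t ht => ?_
    rw [Finset.mem_range] at ht
    unfold lowM
    rw [if_neg (by omega), if_neg (by omega)]
    have e1 : (j : ℕ) + t + 1 = j + 1 + t := by omega
    have e2 : (i : ℕ) + 1 - (j + 1 + t) = i - j - t := by omega
    have e3 : (j : ℕ) + 1 + t - (j + 1) = t := by omega
    rw [e1, e2, e3]

theorem UtU_mat (e : Bool) (a N : ℕ) (ha : 3 * N < a) : Utm e a N * Um e a N = 1 := by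
  ext i j
  rw [Matrix.mul_apply, Matrix.one_apply]
  simp only [Utm, Um, of_apply]
  rw [Fin.sum_univ_eq_sum_range (fun k => uppM (Utf e (a : ℚ)) (i + 1) (k + 1) *
    uppM (Uf e (a : ℚ)) (k + 1) (j + 1)) N,
    ldu_shift (fun n => uppM (Utf e (a : ℚ)) (i + 1) n * uppM (Uf e (a : ℚ)) n (j + 1)) N,
    UtU e a N (by omega) (i + 1) (j + 1) (by omega) (by omega) (by omega) (by omega)]
  by_cases h : i = j
  · rw [if_pos h, if_pos (by rw [h])]
  · rw [if_neg h, if_neg (fun h' => h (Fin.ext (by omega)))]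

theorem BUt_mat (e : Bool) (a N : ℕ) (ha : 3 * N < a) :
    Bm e a N * Utm e a N = Lm e a N * Dm e a N := by
  ext i j
  have hi := i.2
  have hj := j.2
  rw [Dm, Matrix.mul_diagonal, Matrix.mul_apply]
  simp only [Bm, Utm, Lm, of_apply]
  rw [Fin.sum_univ_eq_sum_range (fun k => B e (a : ℚ) (i + 1) (k + 1) *
    uppM (Utf e (a : ℚ)) (k + 1) (j + 1)) N,
    ldu_shift (fun n => B e (a : ℚ) (i + 1) n * uppM (Utf e (a : ℚ)) n (j + 1)) N]
  have h1 : ∑ n ∈ Finset.Icc 1 N, B e (a : ℚ) (i + 1) n * uppM (Utf e (a : ℚ)) n (j + 1) =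
      ∑ n ∈ Finset.Icc 1 (j + 1 : ℕ), B e (a : ℚ) (i + 1) n * uppM (Utf e (a : ℚ)) n (j + 1) := by
    symm
    refine Finset.sum_subset (Finset.Icc_subset_Icc le_rfl (by omega)) fun n hn hn' => ?_
    rw [Finset.mem_Icc] at hn hn'
    have : uppM (Utf e (a : ℚ)) n (j + 1) = 0 := if_pos (by omega)
    rw [this, mul_zero]
  have h2 := BUt e (j + 1) (by omega) a (i + 1) (by omega) (by omega)
  rw [h1, h2]

theorem LDU (e : Bool) (a N : ℕ) (ha : 3 * N < a) :
    Bm e a N = Lm e a N * Dm e a N * Um e a N := by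
  have h1 := UtU_mat e a N ha
  have h2 : Um e a N * Utm e a N = 1 := mul_eq_one_comm.mp h1
  have h3 := BUt_mat e a N ha
  calc Bm e a N = Bm e a N * (Utm e a N * Um e a N) := by rw [h1, Matrix.mul_one]
    _ = Lm e a N * Dm e a N * Um e a N := by rw [← Matrix.mul_assoc, h3]

end Pool.Agent.GV
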