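import Pool.Agent.GV.Basic

/-!
# GV-CM-Ratio: the ratios `D_a(n) / D_{a+1}(n)` and `D_{a+1}(n+1) / D_a(n)`

Notation: `hh e a n`, `ee e a n` are the explicit ratios.

Plan: unfold `D0`, `D1`, `hh`, `ee`.  Write `n = m + 1` for `e = 0` (so `n - 1 = m`).
`D0_ee`: `P (a - 2n - 2) n = P ((a-2n-1) - 1) n`, and with `P_succ'`, `P_succ` (file Basic)
`(a-2n-1) * P (a-2n-2) (m+1) = P (a-2n-1) (m+2) = P (a-2n-1) m * (a-3n) * (a-3n-1)`,
`O (2a-2n-1) (n+1) = O (2a-2n-1) n * (2a-4n-1)`, `df (n+1) = df n (2n+1)`,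
`P (2a-3n-2) (m+1)`: here `2(a+1)-3(n+1)-1 = 2a-3n-2` and
`(2a-3n-1) * P (2a-3n-2) (m+1) = P (2a-3n-1) (m+2) = P (2a-3n-1) m * (2a-4n) * (2a-4n-1)`.
All denominators are non-zero (`P_ne_zero`, `O_ne_zero`, `df_ne_zero`) because `2n < a`.
Then `field_simp` and `ring`.  The same for the other three.  (All four identities were checked
numerically.)  It may help to prove first, for a generic `X`, `P`-identities as `have` statements
and to generalise the products to variables before `field_simp`.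
-/

namespace Pool.Agent.GV

/-- `D_a(n) / D_{a+1}(n)` -/
def hh (e : Bool) (a : ℚ) (n : ℕ) : ℚ :=
  bif e then
    (a - 3 * n) * (2 * a - 3 * n + 1) * (2 * a - 3 * n + 2) /
      (2 * (a - 2 * n) * (a - 2 * n + 1) * (2 * a - 2 * n + 1))
  else
    (a - 3 * n + 1) * (2 * a - 3 * n + 1) * (2 * a - 3 * n) /
      (2 * (a - 2 * n) * (a - 2 * n + 1) * (2 * a - 2 * n + 1))

/-- `D_{a+1}(n+1) / D_a(n)` -/
def ee (e : Bool) (a : ℚ) (n : ℕ) : ℚ :=
  bif e then
    -((a - 3 * n - 1) * (a - 3 * n - 2) * (2 * a - 3 * n)) /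
      (2 * (2 * n + 1) * (a - 2 * n - 1) * (a - 2 * n))
  else
    -((a - 3 * n - 1) * (2 * a - 3 * n - 1) * (a - 3 * n)) /
      (2 * (2 * n + 1) * (a - 2 * n - 1) * (a - 2 * n))

/-- a product divided by a product, with the relations between the factors -/
private lemma ratio_key {c p1 p2 o1 o2 q1 q2 A B C D E F : ℚ} (hA : A ≠ 0) (hC : C ≠ 0)
    (hE : E ≠ 0) (h1 : p1 * A = p2 * B) (h2 : o1 * C = o2 * D) (h3 : q1 * E = q2 * F) :
    c * p1 * o1 / q1 = (B * D * E / (A * C * F)) * (c * p2 * o2 / q2) := by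
  rw [eq_div_of_mul_eq hA h1, eq_div_of_mul_eq hC h2, eq_div_of_mul_eq hE h3]
  simp only [div_eq_mul_inv, mul_inv, inv_inv]
  ring

private lemma ratio_key' {c u v p1 p2 o1 o2 q1 q2 A B C D E F : ℚ} (hA : A ≠ 0) (hC : C ≠ 0)
    (hE : E ≠ 0) (h1 : p1 * A = p2 * B) (h2 : o1 * C = o2 * D) (h3 : q1 * E = q2 * F) :
    c * (u / v) * p1 * o1 / q1 = (u * (B * D * E) / (v * (A * C * F))) * (c * p2 * o2 / q2) := by
  rw [ratio_key hA hC hE h1 h2 h3]
  simp only [div_eq_mul_inv, mul_inv]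
  ring

/-- `P` with shifted argument -/
private lemma P_sh (x : ℚ) (m : ℕ) : P (x - 1) m * x = P x m * (x - m) := by
  rw [mul_comm, ← P_succ', P_succ]

private lemma P_sh2 (x : ℚ) (m : ℕ) :
    P (x - 1) (m + 1) * x = P x m * ((x - m) * (x - m - 1)) := by
  rw [mul_comm, ← P_succ', P_succ, P_succ]
  push_cast
  ring

private lemma P_sh3 (x : ℚ) (m : ℕ) :
    P (x - 2) m * (x * (x - 1)) = P x m * ((x - m) * (x - m - 1)) := by
  have h1 : P x (m + 2) = x * ((x - 1) * P (x - 2) m) := by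
    rw [P_succ', P_succ', show x - 1 - 1 = x - 2 by ring]
  have h2 : P x (m + 2) = P x m * ((x - m) * (x - m - 1)) := by
    rw [P_succ, P_succ]
    push_cast
    ring
  rw [← h2, h1]
  ring

private lemma O_sh (x : ℚ) (m : ℕ) : O (x - 2) m * x = O x m * (x - 2 * m) := by
  rw [mul_comm, ← O_succ', O_succ]

theorem D_hh (e : Bool) (a n : ℕ) (hn : 1 ≤ n) (ha : 2 * n < a) :
    Dd e a n = hh e a n * Dd e ((a : ℚ) + 1) n := by
  have haq : 2 * (n : ℚ) + 1 ≤ a := by exact_mod_cast ha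
  have hnq : (1 : ℚ) ≤ n := by exact_mod_cast hn
  cases e with
  | false =>
    simp only [Dd, hh, cond_false]
    obtain ⟨m, rfl⟩ : ∃ m, n = m + 1 := ⟨n - 1, by omega⟩
    unfold D0
    rw [Nat.add_sub_cancel]
    have h1 := P_sh ((a : ℚ) + 1 - 2 * ((m + 1 : ℕ) : ℚ) - 1) m
    have h2 := O_sh (2 * ((a : ℚ) + 1) - 2 * ((m + 1 : ℕ) : ℚ) - 1) (m + 1)
    have h3 := P_sh3 (2 * ((a : ℚ) + 1) - 3 * ((m + 1 : ℕ) : ℚ) - 1) m
    rw [show (a : ℚ) + 1 - 2 * ((m + 1 : ℕ) : ℚ) - 1 - 1 = a - 2 * ((m + 1 : ℕ) : ℚ) - 1 by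
      push_cast; ring] at h1
    rw [show 2 * ((a : ℚ) + 1) - 2 * ((m + 1 : ℕ) : ℚ) - 1 - 2 =
      2 * a - 2 * ((m + 1 : ℕ) : ℚ) - 1 by push_cast; ring] at h2
    rw [show 2 * ((a : ℚ) + 1) - 3 * ((m + 1 : ℕ) : ℚ) - 1 - 2 =
      2 * a - 3 * ((m + 1 : ℕ) : ℚ) - 1 by push_cast; ring] at h3
    push_cast at haq hnq
    rw [ratio_key ?_ ?_ ?_ h1 h2 h3]
    · congr 1
      have e1 : (a : ℚ) - 2 * (m + 1) ≠ 0 := by
        have : (0 : ℚ) < a - 2 * (m + 1) := by linarith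
        exact this.ne'
      have e2 : (a : ℚ) - 2 * (m + 1) + 1 ≠ 0 := by
        have : (0 : ℚ) < a - 2 * (m + 1) + 1 := by linarith
        exact this.ne'
      have e3 : (2 : ℚ) * a - 2 * (m + 1) + 1 ≠ 0 := by
        have : (0 : ℚ) < 2 * a - 2 * (m + 1) + 1 := by linarith
        exact this.ne'
      have e4 : (2 : ℚ) * a - 4 * (m + 1) + 1 ≠ 0 := by
        have : (0 : ℚ) < 2 * a - 4 * (m + 1) + 1 := by linarith
        exact this.ne'
      push_cast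
      rw [div_eq_div_iff]
      · ring
      · have e5 : ((a : ℚ) + 1 - 2 * (m + 1) - 1) * (2 * (a + 1) - 2 * (m + 1) - 1) *
            ((2 * (a + 1) - 3 * (m + 1) - 1 - m) * (2 * (a + 1) - 3 * (m + 1) - 1 - m - 1)) =
            (a - 2 * (m + 1)) * (2 * a - 2 * (m + 1) + 1) *
              ((2 * (a - 2 * (m + 1) + 1)) * (2 * a - 4 * (m + 1) + 1)) := by ring
        rw [e5]
        positivity
      · positivity
    · push_cast
      have : (0 : ℚ) < a + 1 - 2 * (m + 1) - 1 := by linarith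
      exact this.ne'
    · push_cast
      have : (0 : ℚ) < 2 * (a + 1) - 2 * (m + 1) - 1 := by linarith
      exact this.ne'
    · push_cast
      have h5 : (0 : ℚ) < 2 * (a + 1) - 3 * (m + 1) - 1 := by linarith
      have h6 : (0 : ℚ) < 2 * (a + 1) - 3 * (m + 1) - 1 - 1 := by linarith
      exact (mul_pos h5 h6).ne'
  | true =>
    simp only [Dd, hh, cond_true]
    unfold D1
    have h1 := P_sh ((a : ℚ) + 1 - 2 * (n : ℚ) - 1) n
    have h2 := O_sh (2 * ((a : ℚ) + 1) - 2 * (n : ℚ) - 1) n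
    have h3 := P_sh3 (2 * ((a : ℚ) + 1) - 3 * (n : ℚ)) n
    rw [show (a : ℚ) + 1 - 2 * (n : ℚ) - 1 - 1 = a - 2 * (n : ℚ) - 1 by ring] at h1
    rw [show 2 * ((a : ℚ) + 1) - 2 * (n : ℚ) - 1 - 2 = 2 * a - 2 * (n : ℚ) - 1 by ring] at h2
    rw [show 2 * ((a : ℚ) + 1) - 3 * (n : ℚ) - 2 = 2 * a - 3 * (n : ℚ) by ring] at h3
    rw [ratio_key ?_ ?_ ?_ h1 h2 h3]
    · congr 1
      have e1 : (a : ℚ) - 2 * n ≠ 0 := by
        have : (0 : ℚ) < a - 2 * n := by linarith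
        exact this.ne'
      have e2 : (a : ℚ) - 2 * n + 1 ≠ 0 := by
        have : (0 : ℚ) < a - 2 * n + 1 := by linarith
        exact this.ne'
      have e3 : (2 : ℚ) * a - 2 * n + 1 ≠ 0 := by
        have : (0 : ℚ) < 2 * a - 2 * n + 1 := by linarith
        exact this.ne'
      have e4 : (2 : ℚ) * a - 4 * n + 1 ≠ 0 := by
        have : (0 : ℚ) < 2 * a - 4 * n + 1 := by linarith
        exact this.ne'
      rw [div_eq_div_iff]
      · ring
      · have e5 : ((a : ℚ) + 1 - 2 * n - 1) * (2 * (a + 1) - 2 * n - 1) *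
            ((2 * (a + 1) - 3 * n - n) * (2 * (a + 1) - 3 * n - n - 1)) =
            (a - 2 * n) * (2 * a - 2 * n + 1) *
              ((2 * (a - 2 * n + 1)) * (2 * a - 4 * n + 1)) := by ring
        rw [e5]
        positivity
      · positivity
    · have : (0 : ℚ) < a + 1 - 2 * n - 1 := by linarith
      exact this.ne'
    · have : (0 : ℚ) < 2 * (a + 1) - 2 * n - 1 := by linarith
      exact this.ne'
    · have h5 : (0 : ℚ) < 2 * (a + 1) - 3 * n := by linarith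
      have h6 : (0 : ℚ) < 2 * (a + 1) - 3 * n - 1 := by linarith
      exact (mul_pos h5 h6).ne'

theorem D_ee (e : Bool) (a n : ℕ) (hn : 1 ≤ n) (ha : 2 * n + 1 < a) :
    Dd e ((a : ℚ) + 1) (n + 1) = ee e a n * Dd e a n := by
  have haq : 2 * (n : ℚ) + 1 + 1 ≤ a := by exact_mod_cast ha
  have hnq : (1 : ℚ) ≤ n := by exact_mod_cast hn
  have hdf : ∀ k : ℕ, (-1 : ℚ) ^ (k + 1) / df (k + 1) = (-1) ^ k / df k * (-1 / (2 * k + 1)) := by
    intro k
    rw [df_succ, pow_succ]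
    have h1 := df_ne_zero k
    have h2 : (2 * (k : ℚ) + 1) ≠ 0 := by positivity
    field_simp
  cases e with
  | false =>
    simp only [Dd, ee, cond_false]
    obtain ⟨m, rfl⟩ : ∃ m, n = m + 1 := ⟨n - 1, by omega⟩
    unfold D0
    rw [Nat.add_sub_cancel, Nat.add_sub_cancel, hdf (m + 1), O_succ]
    have h1 := P_sh2 ((a : ℚ) - 2 * ((m + 1 : ℕ) : ℚ) - 1) m
    have h3 := P_sh2 (2 * (a : ℚ) - 3 * ((m + 1 : ℕ) : ℚ) - 1) m
    rw [show (a : ℚ) - 2 * ((m + 1 : ℕ) : ℚ) - 1 - 1 = a + 1 - 2 * ((m + 1 + 1 : ℕ) : ℚ) - 1 by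
      push_cast; ring] at h1
    rw [show 2 * (a : ℚ) - 3 * ((m + 1 : ℕ) : ℚ) - 1 - 1 =
      2 * (a + 1) - 3 * ((m + 1 + 1 : ℕ) : ℚ) - 1 by push_cast; ring] at h3
    rw [show 2 * ((a : ℚ) + 1) - 2 * ((m + 1 + 1 : ℕ) : ℚ) - 1 =
      2 * a - 2 * ((m + 1 : ℕ) : ℚ) - 1 by push_cast; ring]
    have h2 : O (2 * (a : ℚ) - 2 * ((m + 1 : ℕ) : ℚ) - 1) (m + 1) *
        (2 * a - 2 * ((m + 1 : ℕ) : ℚ) - 1 - 2 * ((m + 1 : ℕ) : ℚ)) * 1 =
        O (2 * (a : ℚ) - 2 * ((m + 1 : ℕ) : ℚ) - 1) (m + 1) *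
        (2 * a - 2 * ((m + 1 : ℕ) : ℚ) - 1 - 2 * ((m + 1 : ℕ) : ℚ)) := mul_one _
    push_cast at haq hnq
    rw [ratio_key' ?_ one_ne_zero ?_ h1 h2 h3]
    · congr 1
      have e1 : (a : ℚ) - 2 * (m + 1) ≠ 0 := by
        have : (0 : ℚ) < a - 2 * (m + 1) := by linarith
        exact this.ne'
      have e2 : (a : ℚ) - 2 * (m + 1) - 1 ≠ 0 := by
        have : (0 : ℚ) < a - 2 * (m + 1) - 1 := by linarith
        exact this.ne'
      have e3 : (2 : ℚ) * (m + 1) + 1 ≠ 0 := by positivity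
      have e4 : (2 : ℚ) * a - 4 * (m + 1) - 1 ≠ 0 := by
        have : (0 : ℚ) < 2 * a - 4 * (m + 1) - 1 := by linarith
        exact this.ne'
      push_cast
      rw [div_eq_div_iff]
      · ring
      · have e5 : (2 * ((m : ℚ) + 1) + 1) * (((a : ℚ) - 2 * (m + 1) - 1) * 1 *
            ((2 * a - 3 * (m + 1) - 1 - m) * (2 * a - 3 * (m + 1) - 1 - m - 1))) =
            (a - 2 * (m + 1) - 1) * (2 * (a - 2 * (m + 1))) * (2 * a - 4 * (m + 1) - 1) *
              (2 * (m + 1) + 1) := by ring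
        rw [e5]
        positivity
      · positivity
    · push_cast
      have : (0 : ℚ) < a - 2 * (m + 1) - 1 := by linarith
      exact this.ne'
    · push_cast
      have : (0 : ℚ) < 2 * a - 3 * (m + 1) - 1 := by linarith
      exact this.ne'
  | true =>
    simp only [Dd, ee, cond_true]
    unfold D1
    rw [hdf n, O_succ]
    have h1 := P_sh2 ((a : ℚ) - 2 * (n : ℚ) - 1) n
    have h3 := P_sh2 (2 * (a : ℚ) - 3 * (n : ℚ)) n
    rw [show (a : ℚ) - 2 * (n : ℚ) - 1 - 1 = a + 1 - 2 * ((n + 1 : ℕ) : ℚ) - 1 by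
      push_cast; ring] at h1
    rw [show 2 * (a : ℚ) - 3 * (n : ℚ) - 1 = 2 * (a + 1) - 3 * ((n + 1 : ℕ) : ℚ) by
      push_cast; ring] at h3
    rw [show 2 * ((a : ℚ) + 1) - 2 * ((n + 1 : ℕ) : ℚ) - 1 = 2 * a - 2 * (n : ℚ) - 1 by
      push_cast; ring]
    have h2 : O (2 * (a : ℚ) - 2 * (n : ℚ) - 1) n * (2 * a - 2 * (n : ℚ) - 1 - 2 * (n : ℚ)) * 1 =
        O (2 * (a : ℚ) - 2 * (n : ℚ) - 1) n * (2 * a - 2 * (n : ℚ) - 1 - 2 * (n : ℚ)) := mul_one _
    rw [ratio_key' ?_ one_ne_zero ?_ h1 h2 h3]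
    · congr 1
      have e1 : (a : ℚ) - 2 * n ≠ 0 := by
        have : (0 : ℚ) < a - 2 * n := by linarith
        exact this.ne'
      have e2 : (a : ℚ) - 2 * n - 1 ≠ 0 := by
        have : (0 : ℚ) < a - 2 * n - 1 := by linarith
        exact this.ne'
      have e3 : (2 : ℚ) * n + 1 ≠ 0 := by positivity
      have e4 : (2 : ℚ) * a - 4 * n - 1 ≠ 0 := by
        have : (0 : ℚ) < 2 * a - 4 * n - 1 := by linarith
        exact this.ne'
      rw [div_eq_div_iff]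
      · ring
      · have e5 : (2 * (n : ℚ) + 1) * (((a : ℚ) - 2 * n - 1) * 1 *
            ((2 * a - 3 * n - n) * (2 * a - 3 * n - n - 1))) =
            (a - 2 * n - 1) * (2 * (a - 2 * n)) * (2 * a - 4 * n - 1) * (2 * n + 1) := by ring
        rw [e5]
        positivity
      · positivity
    · have : (0 : ℚ) < a - 2 * n - 1 := by linarith
      exact this.ne'
    · have : (0 : ℚ) < 2 * a - 3 * n := by linarith
      exact this.ne'

/-- `D(n) ≠ 0` -/
theorem Dd_ne_zero (e : Bool) (a n : ℕ) (hn : 1 ≤ n) (ha : 3 * n < a) : Dd e a n ≠ 0 := by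
  have haq : 3 * (n : ℚ) + 1 ≤ a := by exact_mod_cast ha
  have hnq : (1 : ℚ) ≤ n := by exact_mod_cast hn
  cases e with
  | false =>
    simp only [Dd, cond_false]
    obtain ⟨m, rfl⟩ : ∃ m, n = m + 1 := ⟨n - 1, by omega⟩
    unfold D0
    rw [Nat.add_sub_cancel]
    push_cast at haq hnq ⊢
    refine div_ne_zero (mul_ne_zero (mul_ne_zero (div_ne_zero ?_ (df_ne_zero _)) ?_) ?_) ?_
    · positivity
    · exact P_ne_zero (by linarith)
    · exact O_ne_zero (by push_cast; linarith)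
    · exact P_ne_zero (by linarith)
  | true =>
    simp only [Dd, cond_true]
    unfold D1
    refine div_ne_zero (mul_ne_zero (mul_ne_zero (div_ne_zero ?_ (df_ne_zero _)) ?_) ?_) ?_
    · positivity
    · exact P_ne_zero (by linarith)
    · exact O_ne_zero (by linarith)
    · exact P_ne_zero (by linarith)

end Pool.Agent.GV
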